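import Pool.Agent.Helper20.EP.Spec2
import Pool.Graph.R_seed8.Helper256.KM.Mertens

/-!
# EP swarm, part DUALA: the analytic part of the duality
-/

set_option autoImplicit false

open Filter Topology

namespace Pool.Agent.Helper12.EP.DualA

open Pool.Agent.Helper20.EP

lemma primesLE_eq (x : ℝ) : primesLE x = (Finset.Icc 1 ⌊x⌋₊).filter Nat.Prime := by
  ext p
  simp only [primesLE, Finset.mem_filter, Finset.mem_range, Finset.mem_Icc]
  constructor
  · rintro ⟨h1, h2⟩
    exact ⟨⟨h2.one_lt.le, by omega⟩, h2⟩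
  · rintro ⟨⟨h1, h2⟩, h3⟩
    exact ⟨by omega, h3⟩

lemma mem_primesLE {x : ℝ} (hx : 0 ≤ x) {p : ℕ} : p ∈ primesLE x ↔ p.Prime ∧ (p : ℝ) ≤ x := by
  simp only [primesLE, Finset.mem_filter, Finset.mem_range, Nat.lt_succ_iff, Nat.le_floor_iff hx]
  tauto

lemma floor_facts {x : ℝ} (hx : 1 ≤ x) : (1 : ℝ) ≤ (⌊x⌋₊ : ℝ) ∧
    Real.log (⌊x⌋₊ : ℝ) ≤ Real.log x ∧ Real.log x ≤ Real.log (⌊x⌋₊ : ℝ) + 1 := by
  have hN : 1 ≤ ⌊x⌋₊ := Nat.le_floor (by exact_mod_cast hx)
  have hN' : (1 : ℝ) ≤ (⌊x⌋₊ : ℝ) := by exact_mod_cast hN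
  have hfl : (⌊x⌋₊ : ℝ) ≤ x := Nat.floor_le (by linarith)
  have hfl2 : x < ⌊x⌋₊ + 1 := Nat.lt_floor_add_one x
  refine ⟨hN', Real.log_le_log (by linarith) hfl, ?_⟩
  have h1 : Real.log x ≤ Real.log (2 * (⌊x⌋₊ : ℝ)) := Real.log_le_log (by linarith) (by linarith)
  rw [Real.log_mul (by norm_num) (by linarith)] at h1
  have h2 := Real.log_two_lt_d9
  linarith

/-- first theorem of Mertens -/
lemma mert_log : ∃ C : ℝ, 0 ≤ C ∧ ∀ x : ℝ, 1 ≤ x →
    |∑ p ∈ primesLE x, Real.log p / p - Real.log x| ≤ C := by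
  obtain ⟨C, hC⟩ := Pool.Agent.Helper256.KM.mertens_log
  have hC0 : 0 ≤ C := (abs_nonneg _).trans (hC 1 le_rfl)
  refine ⟨C + 1, by linarith, fun x hx => ?_⟩
  rw [primesLE_eq]
  obtain ⟨h1, h2, h3⟩ := floor_facts hx
  have h4 := hC ⌊x⌋₊ (by exact_mod_cast h1)
  rw [abs_le] at h4 ⊢
  constructor <;> linarith [h4.1, h4.2]

/-- second theorem of Mertens -/
lemma mert_inv : ∃ C : ℝ, 0 ≤ C ∧ ∀ x : ℝ, 3 ≤ x →
    |∑ p ∈ primesLE x, (1 : ℝ) / p - ll x| ≤ C := by
  obtain ⟨C, hC⟩ := Pool.Agent.Helper256.KM.mertens_inv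
  have hC0 : 0 ≤ C := (abs_nonneg _).trans (hC 3 le_rfl)
  refine ⟨C + 1, by linarith, fun x hx => ?_⟩
  rw [primesLE_eq]
  obtain ⟨-, h2, h3⟩ := floor_facts (by linarith : (1 : ℝ) ≤ x)
  have hN : 3 ≤ ⌊x⌋₊ := Nat.le_floor (by exact_mod_cast hx)
  have hN' : (3 : ℝ) ≤ (⌊x⌋₊ : ℝ) := by exact_mod_cast hN
  have h4 := hC ⌊x⌋₊ hN
  have hl1 : 1 ≤ Real.log (⌊x⌋₊ : ℝ) := by
    rw [Real.le_log_iff_exp_le (by linarith)]
    have := Real.exp_one_lt_d9
    linarith
  have h5 : Real.log (Real.log (⌊x⌋₊ : ℝ)) ≤ ll x := Real.log_le_log (by linarith) h2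
  have h6 : ll x ≤ Real.log (Real.log (⌊x⌋₊ : ℝ)) + 1 := by
    have h7 : Real.log (Real.log x) ≤ Real.log (2 * Real.log (⌊x⌋₊ : ℝ)) :=
      Real.log_le_log (by linarith) (by linarith)
    rw [Real.log_mul (by norm_num) (by linarith)] at h7
    have h8 := Real.log_two_lt_d9
    unfold ll
    linarith
  rw [abs_le] at h4 ⊢
  constructor <;> linarith [h4.1, h4.2]

/-- summation by parts -/
lemma abel_le (f v : ℕ → ℝ) (E : ℝ) (hv : Antitone v) (hv0 : ∀ n, 0 ≤ v n) (N : ℕ)
    (h : ∀ n ≤ N, ∑ j ∈ Finset.range (n + 1), f j ≤ E) :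
    ∑ j ∈ Finset.range (N + 1), f j * v j ≤ E * v 0 := by
  have key : ∀ n ≤ N, ∑ j ∈ Finset.range (n + 1), f j * v j ≤
      (∑ j ∈ Finset.range (n + 1), f j) * v n + E * (v 0 - v n) := by
    intro n
    induction n with
    | zero => intro _; simp
    | succ n ih =>
      intro hn
      rw [Finset.sum_range_succ, Finset.sum_range_succ (fun j => f j)]
      have h1 := ih (by omega)
      have h2 := h n (by omega)
      have h3 : 0 ≤ v n - v (n + 1) := sub_nonneg.2 (hv (Nat.le_succ n))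
      have h4 := mul_le_mul_of_nonneg_right h2 h3
      nlinarith [h1, h4]
  have h1 := key N le_rfl
  have h2 := mul_le_mul_of_nonneg_right (h N le_rfl) (hv0 N)
  nlinarith [h1, h2]

/-- the weights -/
noncomputable def W (K : ℝ) (p : ℕ) : ℝ := Real.log p / p / max K (Real.log p)

lemma W_nonneg {K : ℝ} (hK : 0 < K) (p : ℕ) : 0 ≤ W K p := by
  unfold W
  have h1 : 0 ≤ Real.log (p : ℝ) := Real.log_natCast_nonneg p
  have h2 : 0 < max K (Real.log p) := lt_max_of_lt_left hK
  positivity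

lemma W_le {K : ℝ} (hK : 0 < K) (p : ℕ) : W K p ≤ 1 / p := by
  unfold W
  have h1 : 0 ≤ Real.log (p : ℝ) := Real.log_natCast_nonneg p
  have h2 : 0 < max K (Real.log p) := lt_max_of_lt_left hK
  rw [div_le_iff₀ h2]
  have h3 : Real.log (p : ℝ) / p = 1 / p * Real.log p := by ring
  rw [h3]
  exact mul_le_mul_of_nonneg_left (le_max_right _ _) (by positivity)

lemma W_le' {K : ℝ} (hK : 0 < K) (p : ℕ) : W K p ≤ Real.log p / p / K := by
  unfold W
  have h1 : 0 ≤ Real.log (p : ℝ) := Real.log_natCast_nonneg p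
  exact div_le_div_of_nonneg_left (by positivity) hK (le_max_left _ _)

lemma W_eq {K : ℝ} (hK : 0 < K) (p : ℕ) (hp : K ≤ Real.log p) : W K p = 1 / p := by
  unfold W
  rw [max_eq_right hp]
  have h1 : Real.log (p : ℝ) ≠ 0 := by linarith
  by_cases h2 : (p : ℝ) = 0
  · simp [h2]
  field_simp

lemma pair_bound (C0 : ℝ)
    (hC0 : ∀ x : ℝ, 1 ≤ x → |∑ p ∈ primesLE x, Real.log p / p - Real.log x| ≤ C0)
    (X K B : ℝ) (hX : 1 ≤ X) (hK : 0 < K) (hB : 0 ≤ B) (k : ℕ → ℝ) (y : ℝ)
    (hk : ∀ Y : ℝ, 1 ≤ Y → ∑ p ∈ (primesLE Y).filter (fun p : ℕ => X < p),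
      k p * Real.log p / p ≤ Real.log Y + B) :
    ∑ p ∈ (primesLE y).filter (fun p : ℕ => X < p), W K p * k p ≤
      ∑ p ∈ (primesLE y).filter (fun p : ℕ => X < p), W K p + (B + Real.log X + 2 * C0) / K := by
  have hC00 : 0 ≤ C0 := (abs_nonneg _).trans (hC0 1 le_rfl)
  set f : ℕ → ℝ := fun n => if n.Prime then ((if X < (n : ℝ) then k n else 0) - 1) *
    (Real.log n / n) else 0 with hf
  set v : ℕ → ℝ := fun n => 1 / max K (Real.log n) with hv
  have hpos : ∀ n : ℕ, 0 < max K (Real.log (n : ℝ)) := fun n => lt_max_of_lt_left hK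
  have hv1 : Antitone v := by
    intro a b hab
    refine one_div_le_one_div_of_le (hpos a) (max_le_max le_rfl ?_)
    rcases Nat.eq_zero_or_pos a with h | h
    · subst h
      simpa using Real.log_natCast_nonneg b
    · exact Real.log_le_log (by exact_mod_cast h) (by exact_mod_cast hab)
  have hv2 : ∀ n, 0 ≤ v n := fun n => (one_div_pos.2 (hpos n)).le
  have hv3 : v 0 = 1 / K := by
    simp only [hv, Nat.cast_zero, Real.log_zero]
    rw [max_eq_left hK.le]
  have hsum : ∀ (n : ℕ) (w : ℕ → ℝ), ∑ j ∈ Finset.range (n + 1), f j * w j =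
      ∑ p ∈ (primesLE (n : ℝ)).filter (fun p : ℕ => X < p), k p * (Real.log p / p) * w p -
        ∑ p ∈ primesLE (n : ℝ), Real.log p / p * w p := by
    intro n w
    rw [Finset.sum_filter, ← Finset.sum_sub_distrib]
    unfold primesLE
    rw [Nat.floor_natCast, Finset.sum_filter]
    refine Finset.sum_congr rfl fun j _ => ?_
    simp only [hf]
    split_ifs <;> ring
  have h1 : ∀ n : ℕ, ∑ j ∈ Finset.range (n + 1), f j ≤ B + C0 := by
    intro n
    have h2 := hsum n (fun _ => 1)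
    simp only [mul_one] at h2
    rw [h2]
    rcases Nat.eq_zero_or_pos n with h | h
    · subst h
      have : primesLE ((0 : ℕ) : ℝ) = ∅ := by
        rw [primesLE_eq]
        simp
      rw [this]
      simp
      linarith
    · have hn : (1 : ℝ) ≤ (n : ℝ) := by exact_mod_cast h
      have h3 := hk n hn
      have h4 := (abs_le.1 (hC0 n hn)).1
      have h5 : ∑ p ∈ (primesLE (n : ℝ)).filter (fun p : ℕ => X < p), k p * (Real.log p / p) =
          ∑ p ∈ (primesLE (n : ℝ)).filter (fun p : ℕ => X < p), k p * Real.log p / p :=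
        Finset.sum_congr rfl fun p _ => by ring
      rw [h5]
      linarith
  have h2 := abel_le f v (B + C0) hv1 hv2 ⌊y⌋₊ fun n _ => h1 n
  rw [hsum, hv3] at h2
  have hfl : primesLE ((⌊y⌋₊ : ℕ) : ℝ) = primesLE y := by
    unfold primesLE
    rw [Nat.floor_natCast]
  rw [hfl] at h2
  have h3 : ∑ p ∈ (primesLE y).filter (fun p : ℕ => X < p), k p * (Real.log p / p) * v p =
      ∑ p ∈ (primesLE y).filter (fun p : ℕ => X < p), W K p * k p :=
    Finset.sum_congr rfl fun p _ => by simp only [W, hv]; ring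
  have h4 : ∑ p ∈ primesLE y, Real.log p / p * v p = ∑ p ∈ primesLE y, W K p :=
    Finset.sum_congr rfl fun p _ => by simp only [W, hv]; ring
  rw [h3, h4] at h2
  have h5 : ∑ p ∈ primesLE y, W K p = ∑ p ∈ (primesLE y).filter (fun p : ℕ => X < p), W K p +
      ∑ p ∈ (primesLE y).filter (fun p : ℕ => ¬ X < p), W K p :=
    (Finset.sum_filter_add_sum_filter_not _ _ _).symm
  have h6 : ∑ p ∈ (primesLE y).filter (fun p : ℕ => ¬ X < p), W K p ≤ (Real.log X + C0) / K := by
    calc ∑ p ∈ (primesLE y).filter (fun p : ℕ => ¬ X < p), W K p ≤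
        ∑ p ∈ primesLE X, Real.log p / p / K := by
          refine (Finset.sum_le_sum fun p _ => W_le' hK p).trans ?_
          refine Finset.sum_le_sum_of_subset_of_nonneg ?_ ?_
          · intro p hp
            rw [Finset.mem_filter] at hp
            rw [mem_primesLE (by linarith)]
            refine ⟨?_, not_lt.1 hp.2⟩
            have := hp.1
            unfold primesLE at this
            exact (Finset.mem_filter.1 this).2
          · intro p _ _
            have : 0 ≤ Real.log (p : ℝ) := Real.log_natCast_nonneg p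
            positivity
      _ = (∑ p ∈ primesLE X, Real.log p / p) / K := by rw [Finset.sum_div]
      _ ≤ (Real.log X + C0) / K := by
          refine div_le_div_of_nonneg_right ?_ hK.le
          linarith [(abs_le.1 (hC0 X hX)).2]
  have h7 : (B + Real.log X + 2 * C0) / K = (B + C0) * (1 / K) + (Real.log X + C0) / K := by
    ring
  rw [h7]
  linarith

lemma cut_bound (C0 C2 : ℝ)
    (hC0 : ∀ x : ℝ, 1 ≤ x → |∑ p ∈ primesLE x, Real.log p / p - Real.log x| ≤ C0)
    (hC2 : ∀ x : ℝ, 3 ≤ x → |∑ p ∈ primesLE x, (1 : ℝ) / p - ll x| ≤ C2)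
    (M y K X Dr : ℝ) (b : ℕ → ℝ) (hM : 3 ≤ M) (hK : Real.log M ≤ K) (hK1 : 1 ≤ K) (hX : 1 ≤ X)
    (hXK : Real.log X ≤ K) (hb : ∀ p, |b p| ≤ Dr) :
    |∑ p ∈ (primesLE y).filter (fun p : ℕ => M < p), b p / p -
      ∑ p ∈ (primesLE y).filter (fun p : ℕ => X < p), W K p * b p| ≤
      Dr * (Real.log K - ll M + 2 * C2 + 1 + C0) := by
  have hK0 : 0 < K := by linarith
  have hDr : 0 ≤ Dr := (abs_nonneg _).trans (hb 0)
  have hMK : M ≤ Real.exp K := by
    rw [← Real.log_le_iff_le_exp (by linarith)]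
    exact hK
  have hprime : ∀ p ∈ primesLE y, p.Prime := by
    intro p hp
    unfold primesLE at hp
    exact (Finset.mem_filter.1 hp).2
  have h1 : ∑ p ∈ (primesLE y).filter (fun p : ℕ => M < p ∧ Real.log p ≤ K), (1 : ℝ) / p ≤
      Real.log K - ll M + 2 * C2 := by
    have h2 : ∑ p ∈ (primesLE y).filter (fun p : ℕ => M < p ∧ Real.log p ≤ K), (1 : ℝ) / p ≤
        ∑ p ∈ (primesLE (Real.exp K)).filter (fun p : ℕ => M < p), (1 : ℝ) / p := by
      refine Finset.sum_le_sum_of_subset_of_nonneg ?_ fun p _ _ => by positivity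
      intro p hp
      rw [Finset.mem_filter] at hp ⊢
      have hpp := hprime p hp.1
      refine ⟨(mem_primesLE (Real.exp_pos K).le).2 ⟨hpp, ?_⟩, hp.2.1⟩
      rw [← Real.log_le_iff_le_exp (by exact_mod_cast hpp.pos)]
      exact hp.2.2
    have h3 := Finset.sum_filter_add_sum_filter_not (primesLE (Real.exp K))
      (fun p : ℕ => M < p) (fun p : ℕ => (1 : ℝ) / p)
    have h4 : (primesLE (Real.exp K)).filter (fun p : ℕ => ¬ M < p) = primesLE M := by
      ext p
      rw [Finset.mem_filter, mem_primesLE (Real.exp_pos K).le, mem_primesLE (by linarith)]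
      constructor
      · rintro ⟨⟨h5, -⟩, h6⟩
        exact ⟨h5, not_lt.1 h6⟩
      · rintro ⟨h5, h6⟩
        exact ⟨⟨h5, h6.trans hMK⟩, not_lt.2 h6⟩
    rw [h4] at h3
    have h5 := (abs_le.1 (hC2 (Real.exp K) (hM.trans hMK))).2
    have h6 := (abs_le.1 (hC2 M hM)).1
    have h7 : ll (Real.exp K) = Real.log K := by
      unfold ll
      rw [Real.log_exp]
    rw [h7] at h5
    linarith
  have h2 : ∑ p ∈ (primesLE y).filter (fun p : ℕ => Real.log p ≤ K), Real.log p / p / K ≤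
      1 + C0 := by
    calc ∑ p ∈ (primesLE y).filter (fun p : ℕ => Real.log p ≤ K), Real.log p / p / K ≤
        ∑ p ∈ primesLE (Real.exp K), Real.log p / p / K := by
          refine Finset.sum_le_sum_of_subset_of_nonneg ?_ ?_
          · intro p hp
            rw [Finset.mem_filter] at hp
            have hpp := hprime p hp.1
            refine (mem_primesLE (Real.exp_pos K).le).2 ⟨hpp, ?_⟩
            rw [← Real.log_le_iff_le_exp (by exact_mod_cast hpp.pos)]
            exact hp.2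
          · intro p _ _
            have : 0 ≤ Real.log (p : ℝ) := Real.log_natCast_nonneg p
            positivity
      _ = (∑ p ∈ primesLE (Real.exp K), Real.log p / p) / K := by rw [Finset.sum_div]
      _ ≤ (K + C0) / K := by
          refine div_le_div_of_nonneg_right ?_ hK0.le
          have h3 := (abs_le.1 (hC0 (Real.exp K) (by linarith))).2
          rw [Real.log_exp] at h3
          linarith
      _ ≤ 1 + C0 := by
          have hC00 : 0 ≤ C0 := (abs_nonneg _).trans (hC0 1 le_rfl)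
          rw [div_le_iff₀ hK0]
          nlinarith
  rw [Finset.sum_filter, Finset.sum_filter, ← Finset.sum_sub_distrib]
  refine (Finset.abs_sum_le_sum_abs _ _).trans ?_
  have h3 : ∀ p ∈ primesLE y, |(if M < (p : ℝ) then b p / p else 0) -
      (if X < (p : ℝ) then W K p * b p else 0)| ≤
      Dr * ((if M < (p : ℝ) ∧ Real.log p ≤ K then (1 : ℝ) / p else 0) +
        (if Real.log p ≤ K then Real.log p / p / K else 0)) := by
    intro p hp
    have hpp := hprime p hp
    have hp0 : (0 : ℝ) < p := by exact_mod_cast hpp.pos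
    have hlp : 0 ≤ Real.log (p : ℝ) := Real.log_natCast_nonneg p
    by_cases h4 : Real.log p ≤ K
    · have h5 : |if M < (p : ℝ) then b p / p else 0| ≤
          Dr * (if M < (p : ℝ) ∧ Real.log p ≤ K then (1 : ℝ) / p else 0) := by
        by_cases h6 : M < (p : ℝ)
        · rw [if_pos h6, if_pos ⟨h6, h4⟩, abs_div, abs_of_pos hp0, mul_one_div]
          exact div_le_div_of_nonneg_right (hb p) hp0.le
        · rw [if_neg h6]
          simp only [abs_zero]
          positivity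
      have h7 : |if X < (p : ℝ) then W K p * b p else 0| ≤
          Dr * (if Real.log p ≤ K then Real.log p / p / K else 0) := by
        rw [if_pos h4]
        by_cases h6 : X < (p : ℝ)
        · rw [if_pos h6, abs_mul, abs_of_nonneg (W_nonneg hK0 p), mul_comm]
          exact mul_le_mul (hb p) (W_le' hK0 p) (W_nonneg hK0 p) hDr
        · rw [if_neg h6, abs_zero]
          positivity
      rw [mul_add]
      exact (abs_sub _ _).trans (add_le_add h5 h7)
    · have h5 : K < Real.log p := not_le.1 h4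
      have h6 : M < (p : ℝ) := by
        rw [← Real.log_lt_log_iff (by linarith) hp0]
        linarith
      have h7 : X < (p : ℝ) := by
        rw [← Real.log_lt_log_iff (by linarith) hp0]
        linarith
      rw [if_pos h6, if_pos h7, W_eq hK0 p h5.le]
      have : b p / p - 1 / p * b p = 0 := by ring
      rw [this, abs_zero]
      positivity
  refine (Finset.sum_le_sum h3).trans ?_
  rw [← Finset.mul_sum, Finset.sum_add_distrib, ← Finset.sum_filter, ← Finset.sum_filter]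
  exact mul_le_mul_of_nonneg_left (by linarith) hDr

/-- the sum of the hypothesis with the weights -/
lemma sum_hyp (T : Finset ℤ) (m : ℤ → ℝ) (k : ℤ → ℤ → ℕ → ℝ) (bad : ℤ → ℤ → Prop)
    [∀ s s', Decidable (bad s s')]
    (hm : ∀ s ∈ T, 0 ≤ m s) (hm1 : ∑ s ∈ T, m s = 1) (Dr E2 δ : ℝ) (hDr : 0 ≤ Dr) (hE2 : 0 ≤ E2)
    (P : Finset ℕ) (w : ℕ → ℝ) (hw : ∀ p, 0 ≤ w p) (u : ℕ → ℝ)
    (hk : ∀ s ∈ T, ∀ s' ∈ T, ∀ p, k s s' p ≤ Dr)
    (hpt : ∀ p ∈ P, 1 + u p ≤ ∑ s ∈ T, ∑ s' ∈ T, m s * m s' * k s s' p)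
    (hnb : ∀ s ∈ T, ∀ s' ∈ T, ¬ bad s s' → ∑ p ∈ P, w p * k s s' p ≤ ∑ p ∈ P, w p + E2)
    (hbad : ∑ s ∈ T, ∑ s' ∈ T with bad s s', m s * m s' ≤ δ) :
    ∑ p ∈ P, w p * u p ≤ E2 + Dr * (∑ p ∈ P, w p) * δ := by
  set G := ∑ p ∈ P, w p with hG
  have hG0 : 0 ≤ G := Finset.sum_nonneg fun p _ => hw p
  have h1 : ∑ p ∈ P, w p * (1 + u p) ≤
      ∑ p ∈ P, w p * ∑ s ∈ T, ∑ s' ∈ T, m s * m s' * k s s' p :=
    Finset.sum_le_sum fun p hp => mul_le_mul_of_nonneg_left (hpt p hp) (hw p)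
  have h2 : ∑ p ∈ P, w p * ∑ s ∈ T, ∑ s' ∈ T, m s * m s' * k s s' p =
      ∑ s ∈ T, ∑ s' ∈ T, m s * m s' * ∑ p ∈ P, w p * k s s' p := by
    simp only [Finset.mul_sum]
    rw [Finset.sum_comm]
    refine Finset.sum_congr rfl fun s _ => ?_
    rw [Finset.sum_comm]
    refine Finset.sum_congr rfl fun s' _ => Finset.sum_congr rfl fun p _ => ?_
    ring
  have h3 : ∀ s ∈ T, ∀ s' ∈ T, ∑ p ∈ P, w p * k s s' p ≤
      (G + E2) + if bad s s' then Dr * G else 0 := by
    intro s hs s' hs'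
    by_cases h : bad s s'
    · rw [if_pos h]
      have h4 : ∑ p ∈ P, w p * k s s' p ≤ Dr * G := by
        rw [hG, Finset.mul_sum]
        refine Finset.sum_le_sum fun p _ => ?_
        rw [mul_comm]
        exact mul_le_mul_of_nonneg_right (hk s hs s' hs' p) (hw p)
      linarith
    · rw [if_neg h, add_zero]
      exact hnb s hs s' hs' h
  have h4 : ∑ s ∈ T, ∑ s' ∈ T, m s * m s' * ∑ p ∈ P, w p * k s s' p ≤
      ∑ s ∈ T, ∑ s' ∈ T, m s * m s' * ((G + E2) + if bad s s' then Dr * G else 0) :=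
    Finset.sum_le_sum fun s hs => Finset.sum_le_sum fun s' hs' =>
      mul_le_mul_of_nonneg_left (h3 s hs s' hs') (mul_nonneg (hm s hs) (hm s' hs'))
  have h5 : ∑ s ∈ T, ∑ s' ∈ T, m s * m s' * ((G + E2) + if bad s s' then Dr * G else 0) =
      (G + E2) + Dr * G * ∑ s ∈ T, ∑ s' ∈ T with bad s s', m s * m s' := by
    have h6 : ∀ s ∈ T, ∑ s' ∈ T, m s * m s' * ((G + E2) + if bad s s' then Dr * G else 0) =
        m s * (G + E2) + Dr * G * ∑ s' ∈ T with bad s s', m s * m s' := by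
      intro s _
      have h7 : ∀ s' ∈ T, m s * m s' * ((G + E2) + if bad s s' then Dr * G else 0) =
          m s * (G + E2) * m s' + Dr * G * (if bad s s' then m s * m s' else 0) := by
        intro s' _
        split_ifs <;> ring
      rw [Finset.sum_congr rfl h7, Finset.sum_add_distrib, ← Finset.mul_sum, ← Finset.mul_sum,
        hm1, Finset.sum_filter, mul_one]
    rw [Finset.sum_congr rfl h6, Finset.sum_add_distrib, ← Finset.sum_mul, hm1, ← Finset.mul_sum,
      one_mul]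
  have h6 : ∑ p ∈ P, w p * (1 + u p) = G + ∑ p ∈ P, w p * u p := by
    rw [hG, ← Finset.sum_add_distrib]
    exact Finset.sum_congr rfl fun p _ => by ring
  have h7 : Dr * G * ∑ s ∈ T, ∑ s' ∈ T with bad s s', m s * m s' ≤ Dr * G * δ :=
    mul_le_mul_of_nonneg_left hbad (mul_nonneg hDr hG0)
  rw [h6] at h1
  rw [h2] at h1
  rw [h5] at h4
  linarith

theorem main : S_DUALA := by
  intro D C ε c' hC hε hc'
  obtain ⟨C0, hC00, hC0⟩ := mert_log
  obtain ⟨C2, hC20, hC2⟩ := mert_inv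
  set B1 : ℝ := 2 * (C + C0) + 1 with hB1
  have hB10 : 0 < B1 := by positivity
  set A : ℝ := max 1 C + 8 * (D : ℝ) ^ 2 * B1 / ε ^ 2 with hA
  have hA1 : 1 ≤ A := by
    have h1 : 0 ≤ 8 * (D : ℝ) ^ 2 * B1 / ε ^ 2 := by positivity
    have := le_max_left 1 C
    linarith
  have hAC : C ≤ A := by
    have h1 : 0 ≤ 8 * (D : ℝ) ^ 2 * B1 / ε ^ 2 := by positivity
    have := le_max_right 1 C
    linarith
  have hA0 : 0 < A := by linarith
  have hA8 : 8 * (D : ℝ) ^ 2 * B1 / ε ^ 2 ≤ A := by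
    have := le_max_left 1 C
    linarith
  set E3 : ℝ := D * (Real.log A + 2 * C2 + 1 + C0) with hE3
  have hlA : 0 ≤ Real.log A := Real.log_nonneg hA1
  have hE30 : 0 ≤ E3 := by positivity
  have ev1 : ∀ᶠ M : ℝ in atTop, (3 : ℝ) ≤ M := eventually_ge_atTop 3
  have ev2 : ∀ᶠ M : ℝ in atTop, max C2 ((2 * E3 / ε) ^ 2) ≤ ll M :=
    (Real.tendsto_log_atTop.comp Real.tendsto_log_atTop).eventually_ge_atTop _
  have ev3 : ∀ᶠ M : ℝ in atTop, (D : ℝ) * (M ^ (-(c' / 2)) + C2 * M ^ (-c')) ≤ 1 / A := by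
    have h1 : Tendsto (fun M : ℝ => (D : ℝ) * (M ^ (-(c' / 2)) + C2 * M ^ (-c'))) atTop
        (𝓝 ((D : ℝ) * (0 + C2 * 0))) :=
      ((tendsto_rpow_neg_atTop (by positivity)).add
        ((tendsto_rpow_neg_atTop hc').const_mul _)).const_mul _
    have h2 : (D : ℝ) * (0 + C2 * 0) < 1 / A := by
      simp only [mul_zero, add_zero]
      positivity
    filter_upwards [h1.eventually (gt_mem_nhds h2)] with M hM using hM.le
  obtain ⟨M₁, hM₁⟩ := (ev1.and (ev2.and ev3)).exists_forall_of_atTop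
  refine ⟨M₁, ?_⟩
  intro M y T m a k bad _ hM hMy hll hm hm1 ha hk hpt hnb hbad
  obtain ⟨hM3, hM2, hMs⟩ := hM₁ M hM
  have hM0 : 0 < M := by linarith
  have hy3 : 3 ≤ y := hM3.trans hMy
  set L := Real.log M with hL
  have hL1 : 1 ≤ L := by
    rw [hL, Real.le_log_iff_exp_le hM0]
    have := Real.exp_one_lt_d9
    linarith
  have hllM : ll M ≤ ll y := Real.log_le_log (by linarith) (Real.log_le_log hM0 hMy)
  have hC2y : C2 ≤ ll y := (le_max_left _ _).trans (hM2.trans hllM)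
  have hE3y : (2 * E3 / ε) ^ 2 ≤ ll y := (le_max_right _ _).trans (hM2.trans hllM)
  have hlly0 : 0 ≤ ll y := hC20.trans hC2y
  set K := A * L with hK
  have hK1 : 1 ≤ K := one_le_mul_of_one_le_of_one_le hA1 hL1
  have hK0 : 0 < K := by linarith
  set X := M ^ C with hX
  have hX1 : 1 ≤ X := Real.one_le_rpow (by linarith) hC.le
  have hlX : Real.log X = C * L := by rw [hX, Real.log_rpow hM0]
  set P := (primesLE y).filter (fun p : ℕ => M ^ C < p) with hP
  set b : ℕ → ℝ := fun p => ∑ s ∈ T, m s * a s p with hb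
  have hbD : ∀ p, |b p| ≤ D := by
    intro p
    refine (Finset.abs_sum_le_sum_abs _ _).trans ?_
    calc ∑ s ∈ T, |m s * a s p| ≤ ∑ s ∈ T, m s * D := by
          refine Finset.sum_le_sum fun s hs => ?_
          rw [abs_mul, abs_of_nonneg (hm s hs)]
          exact mul_le_mul_of_nonneg_left (ha s hs p) (hm s hs)
      _ = D := by rw [← Finset.sum_mul, hm1, one_mul]
  have hexch : ∑ s ∈ T, m s * ∑ p ∈ (primesLE y).filter (fun p : ℕ => M < p), a s p / p =
      ∑ p ∈ (primesLE y).filter (fun p : ℕ => M < p), b p / p := by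
    simp only [Finset.mul_sum]
    rw [Finset.sum_comm]
    refine Finset.sum_congr rfl fun p _ => ?_
    simp only [hb]
    rw [Finset.sum_div]
    exact Finset.sum_congr rfl fun s _ => by ring
  rw [hexch]
  -- the cut-off
  have hcut := cut_bound C0 C2 hC0 hC2 M y K X D b hM3
    (by nlinarith : Real.log M ≤ K) hK1 hX1
    (by rw [hlX, hK]; exact mul_le_mul_of_nonneg_right hAC (by linarith)) hbD
  have hlK : Real.log K - ll M = Real.log A := by
    rw [hK, Real.log_mul (by positivity) (by positivity)]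
    unfold ll
    ring
  rw [hlK] at hcut
  have hE3' : E3 ≤ ε / 2 * Real.sqrt (ll y) := by
    have h1 : 2 * E3 / ε ≤ Real.sqrt (ll y) := Real.le_sqrt_of_sq_le hE3y
    rw [div_le_iff₀ hε] at h1
    linarith
  -- the main part
  have hmain : |∑ p ∈ P, W K p * b p| ≤ ε / 2 * Real.sqrt (ll y) := by
    rcases Nat.eq_zero_or_pos D with hD | hD
    · have h1 : ∀ p, b p = 0 := by
        intro p
        have := hbD p
        rw [hD, Nat.cast_zero] at this
        exact abs_nonpos_iff.1 this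
      simp only [h1, mul_zero, Finset.sum_const_zero, abs_zero]
      positivity
    have hD0 : (0 : ℝ) < D := by exact_mod_cast hD
    have hw : ∀ p, 0 ≤ W K p := W_nonneg hK0
    have hprime : ∀ p ∈ P, p.Prime := by
      intro p hp
      have := (Finset.mem_filter.1 hp).1
      unfold primesLE at this
      exact (Finset.mem_filter.1 this).2
    have hG : ∑ p ∈ P, W K p ≤ ll y + C2 := by
      calc ∑ p ∈ P, W K p ≤ ∑ p ∈ primesLE y, (1 : ℝ) / p := by
            refine (Finset.sum_le_sum fun p _ => W_le hK0 p).trans ?_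
            exact Finset.sum_le_sum_of_subset_of_nonneg (Finset.filter_subset _ _)
              fun p _ _ => by positivity
        _ ≤ ll y + C2 := by linarith [(abs_le.1 (hC2 y hy3)).2]
    have hG0 : 0 ≤ ∑ p ∈ P, W K p := Finset.sum_nonneg fun p _ => hw p
    have hsum := sum_hyp T m k bad hm hm1 D (2 * (C + C0) / A) (M ^ (-c')) hD0.le (by positivity)
      P (W K) hw (fun p => b p ^ 2 / (D : ℝ) ^ 2) (fun s hs s' hs' p => (hk s hs s' hs' p).2)
      (fun p hp => hpt p (hprime p hp) (Finset.mem_filter.1 hp).2)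
      (by
        intro s hs s' hs' hb'
        refine (pair_bound C0 hC0 X K (C * L) hX1 hK0 (by positivity) (k s s') y
          (hnb s hs s' hs' hb')).trans ?_
        have h1 : (C * L + Real.log X + 2 * C0) / K ≤ 2 * (C + C0) / A := by
          rw [hlX, div_le_div_iff₀ hK0 hA0, hK]
          have h2 : C0 ≤ C0 * L := le_mul_of_one_le_right hC00 hL1
          have h3 : C * L + C * L + 2 * C0 ≤ 2 * (C + C0) * L := by nlinarith
          calc (C * L + C * L + 2 * C0) * A ≤ (2 * (C + C0) * L) * A :=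
                mul_le_mul_of_nonneg_right h3 hA0.le
            _ = 2 * (C + C0) * (A * L) := by ring
        exact add_le_add le_rfl h1)
      hbad
    have hsm : (D : ℝ) * (∑ p ∈ P, W K p) * M ^ (-c') ≤ 1 / A := by
      refine le_trans ?_ hMs
      have h1 : ll y * M ^ (-c') ≤ M ^ (-(c' / 2)) := by
        calc ll y * M ^ (-c') ≤ M ^ (c' / 2) * M ^ (-c') :=
              mul_le_mul_of_nonneg_right hll (Real.rpow_nonneg hM0.le _)
          _ = M ^ (-(c' / 2)) := by
              rw [← Real.rpow_add hM0]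
              congr 1
              ring
      have h2 : (∑ p ∈ P, W K p) * M ^ (-c') ≤ (ll y + C2) * M ^ (-c') :=
        mul_le_mul_of_nonneg_right hG (Real.rpow_nonneg hM0.le _)
      rw [mul_assoc]
      refine mul_le_mul_of_nonneg_left ?_ hD0.le
      linarith
    have hV : ∑ p ∈ P, W K p * b p ^ 2 ≤ (D : ℝ) ^ 2 * (B1 / A) := by
      have h1 : ∑ p ∈ P, W K p * (b p ^ 2 / (D : ℝ) ^ 2) =
          (∑ p ∈ P, W K p * b p ^ 2) / (D : ℝ) ^ 2 := by
        rw [Finset.sum_div]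
        exact Finset.sum_congr rfl fun p _ => by ring
      rw [h1] at hsum
      have h2 : (∑ p ∈ P, W K p * b p ^ 2) / (D : ℝ) ^ 2 ≤ B1 / A := by
        have h3 : B1 / A = 2 * (C + C0) / A + 1 / A := by rw [hB1]; ring
        rw [h3]
        linarith
      rw [div_le_iff₀ (by positivity)] at h2
      linarith
    have hCS : (∑ p ∈ P, W K p * b p) ^ 2 ≤ (∑ p ∈ P, W K p) * ∑ p ∈ P, W K p * b p ^ 2 :=
      Finset.sum_sq_le_sum_mul_sum_of_sq_le_mul P (fun p _ => hw p)
        (fun p _ => mul_nonneg (hw p) (sq_nonneg _)) (fun p _ => le_of_eq (by ring))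
    have h1 : (∑ p ∈ P, W K p * b p) ^ 2 ≤ (ε / 2 * Real.sqrt (ll y)) ^ 2 := by
      rw [mul_pow, Real.sq_sqrt hlly0]
      calc (∑ p ∈ P, W K p * b p) ^ 2 ≤ (∑ p ∈ P, W K p) * ∑ p ∈ P, W K p * b p ^ 2 := hCS
        _ ≤ (2 * ll y) * ((D : ℝ) ^ 2 * (B1 / A)) := by
            refine mul_le_mul (by linarith) hV ?_ (by positivity)
            exact Finset.sum_nonneg fun p _ => mul_nonneg (hw p) (sq_nonneg _)
        _ ≤ (ε / 2) ^ 2 * ll y := by
            have h2 : 2 * ((D : ℝ) ^ 2 * (B1 / A)) ≤ (ε / 2) ^ 2 := by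
              rw [div_le_iff₀ (by positivity)] at hA8
              have h3 : 2 * ((D : ℝ) ^ 2 * (B1 / A)) = 2 * (D : ℝ) ^ 2 * B1 / A := by ring
              have h4 : (ε / 2) ^ 2 * A = A * ε ^ 2 / 4 := by ring
              rw [h3, div_le_iff₀ hA0, h4]
              linarith
            calc (2 * ll y) * ((D : ℝ) ^ 2 * (B1 / A)) = 2 * ((D : ℝ) ^ 2 * (B1 / A)) * ll y := by
                  ring
              _ ≤ (ε / 2) ^ 2 * ll y := mul_le_mul_of_nonneg_right h2 hlly0
    exact abs_le_of_sq_le_sq h1 (by positivity)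
  have h1 : ∑ p ∈ (primesLE y).filter (fun p : ℕ => M < p), b p / p =
      (∑ p ∈ (primesLE y).filter (fun p : ℕ => M < p), b p / p - ∑ p ∈ P, W K p * b p) +
        ∑ p ∈ P, W K p * b p := by ring
  rw [h1]
  calc _ ≤ |∑ p ∈ (primesLE y).filter (fun p : ℕ => M < p), b p / p - ∑ p ∈ P, W K p * b p| +
        |∑ p ∈ P, W K p * b p| := abs_add_le _ _
    _ ≤ E3 + ε / 2 * Real.sqrt (ll y) := add_le_add hcut hmain
    _ ≤ ε * Real.sqrt (ll y) := by linarith

end Pool.Agent.Helper12.EP.DualA
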