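import Pool.Agent.Helper20.EP.Spec2

/-!
# EP swarm, part LARGE: the covering argument

`S_LARGE2` is the form with all `η` (in `S_LARGE` one may choose `η`).
-/

set_option autoImplicit false

open Polynomial Filter Topology

namespace Pool.Agent.Helper12.EP.Large

open Pool.Agent.Helper20.EP

/-- LARGE, for every `η > 0`. -/
def S_LARGE2 : Prop := ∀ (d : ℕ) (C0 : ℝ), 1 ≤ d → 1 ≤ C0 → ∃ c : ℝ, 0 < c ∧ c < 1 ∧
  ∀ c' ε η : ℝ, 0 < c' → 0 < ε → 0 < η → ∃ M₁ : ℝ,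
    ∀ (F : ℤ[X]) (M R y : ℝ) (S : Finset ℤ) (m : ℤ → ℝ), Scale d C0 F M R → M₁ ≤ M → M ≤ y →
      (∀ s ∈ S, |(s : ℝ)| ≤ C0 * M) → (∀ s ∈ S, 0 ≤ m s) → ∑ s ∈ S, m s ≤ 1 → AC S m M c c' →
      (∀ u : ℝ, mass S m (fun s => |(s : ℝ) - u| ≤ η * M) ≤ ε / (4 * d)) →
        mass S m (fun s => ε * Real.sqrt (ll y) < |RS (F - C s) M y - (ll y - ll M)|) ≤ ε

lemma mass_nonneg {S : Finset ℤ} {m : ℤ → ℝ} (hm : ∀ s ∈ S, 0 ≤ m s) (P : ℤ → Prop) :
    0 ≤ mass S m P := by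
  classical
  unfold mass
  exact Finset.sum_nonneg fun s hs => hm s (Finset.mem_filter.1 hs).1

lemma mass_mono {S : Finset ℤ} {m : ℤ → ℝ} (hm : ∀ s ∈ S, 0 ≤ m s) {P Q : ℤ → Prop}
    (h : ∀ s ∈ S, P s → Q s) : mass S m P ≤ mass S m Q := by
  classical
  unfold mass
  refine Finset.sum_le_sum_of_subset_of_nonneg ?_ fun s hs _ => hm s (Finset.mem_filter.1 hs).1
  intro s hs
  rw [Finset.mem_filter] at hs ⊢
  exact ⟨hs.1, h s hs.1 hs.2⟩

lemma mass_cover {ι : Type} {S : Finset ℤ} {m : ℤ → ℝ} (hm : ∀ s ∈ S, 0 ≤ m s) {P : ℤ → Prop}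
    (I : Finset ι) (Q : ι → ℤ → Prop) (h : ∀ s ∈ S, P s → ∃ i ∈ I, Q i s) :
    mass S m P ≤ ∑ i ∈ I, mass S m (Q i) := by
  classical
  unfold mass
  simp only [Finset.sum_filter]
  rw [Finset.sum_comm]
  refine Finset.sum_le_sum fun s hs => ?_
  have h0 : ∀ i ∈ I, 0 ≤ if Q i s then m s else 0 := by
    intro i _
    split_ifs
    · exact hm s hs
    · exact le_rfl
  by_cases hP : P s
  · obtain ⟨i, hi, hQ⟩ := h s hs hP
    rw [if_pos hP]
    have h1 := Finset.single_le_sum h0 hi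
    rwa [if_pos hQ] at h1
  · rw [if_neg hP]
    exact Finset.sum_nonneg h0

lemma mass_two {S : Finset ℤ} {m : ℤ → ℝ} (hm : ∀ s ∈ S, 0 ≤ m s) {P Q₁ Q₂ : ℤ → Prop}
    (h : ∀ s ∈ S, P s → Q₁ s ∨ Q₂ s) : mass S m P ≤ mass S m Q₁ + mass S m Q₂ := by
  have h1 := mass_cover hm (P := P) (Finset.univ : Finset Bool)
    (fun b => if b then Q₁ else Q₂) (by
      intro s hs hP
      rcases h s hs hP with h | h
      · exact ⟨true, Finset.mem_univ _, by simpa using h⟩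
      · exact ⟨false, Finset.mem_univ _, by simpa using h⟩)
  simpa using h1

lemma mass_sub {S : Finset ℤ} {m : ℤ → ℝ} (Q P : ℤ → Prop) [DecidablePred Q] :
    mass (S.filter Q) m P = mass S m (fun s => Q s ∧ P s) := by
  classical
  unfold mass
  refine Finset.sum_congr ?_ fun _ _ => rfl
  ext s
  simp only [Finset.mem_filter]
  tauto

lemma mass_zero {S : Finset ℤ} {m : ℤ → ℝ} {P : ℤ → Prop} (h : ∀ s ∈ S, ¬ P s) :
    mass S m P = 0 := by
  classical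
  unfold mass
  refine Finset.sum_eq_zero fun s hs => ?_
  rw [Finset.mem_filter] at hs
  exact absurd hs.2 (h s hs.1)

lemma same_cell {w s t : ℝ} (hw : 0 < w) (h : ⌊s / w⌋ = ⌊t / w⌋) : |s - t| ≤ w := by
  have h1 := Int.abs_sub_lt_one_of_floor_eq_floor h
  rw [← sub_div, abs_div, abs_of_pos hw, div_lt_one hw] at h1
  exact h1.le

lemma cell_mem {w C1 s : ℝ} (B : ℕ) (hw : 0 < w) (hs : |s| ≤ C1 * w) (hB : C1 + 1 ≤ B) :
    ⌊s / w⌋ ∈ Finset.Icc (-(B : ℤ)) B := by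
  have h1 : |s / w| ≤ C1 := by
    rw [abs_div, abs_of_pos hw, div_le_iff₀ hw]
    exact hs
  rw [abs_le] at h1
  rw [Finset.mem_Icc]
  constructor
  · rw [Int.le_floor]
    push_cast
    linarith [h1.1]
  · rw [Int.floor_le_iff]
    push_cast
    linarith [h1.2]

/-- one cell -/
lemma one_cell {d : ℕ} {C0 ρ η ε ε₁ c cU cL c' : ℝ} (hε₁ : ε₁ ≤ ε) (hcU : c ≤ cU)
    (hcL : c ≤ cL) {F : ℤ[X]} {M R y M₀ : ℝ} {S : Finset ℤ} {m : ℤ → ℝ} (hM1 : 1 ≤ M)
    (hroots : ∀ (F : ℤ[X]) (M R c₀ : ℝ), Scale d C0 F M R → M₀ ≤ M → |c₀| ≤ C0 * M →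
      (∀ z : ℂ, aeval z (derivative F) = 0 → η * M ≤ ‖aeval z F - (c₀ : ℂ)‖) →
      ∃ ξ : Fin d → ℂ → ℂ, Lab d F M ρ c₀ ξ)
    (hsc : Scale d C0 F M R) (hM0 : M₀ ≤ M)
    (hS : ∀ s ∈ S, |(s : ℝ)| ≤ C0 * M) (hm : ∀ s ∈ S, 0 ≤ m s) (hm1 : ∑ s ∈ S, m s ≤ 1)
    (hAC : AC S m M c c')
    (hU : ∀ (c₀ : ℝ) (ξ : Fin d → ℂ → ℂ) (S : Finset ℤ),
      Lab d F M ρ c₀ ξ → (∀ s ∈ S, |(s : ℝ) - c₀| ≤ ρ * M / 4) →
      (∀ s ∈ S, 0 ≤ m s) → ∑ s ∈ S, m s ≤ 1 → AC S m M cU c' →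
        mass S m (fun s => ll y - ll M + ε₁ * Real.sqrt (ll y) < RS (F - C s) M y) ≤ ε₁)
    (hL : ∀ (c₀ : ℝ) (ξ : Fin d → ℂ → ℂ) (S : Finset ℤ),
      Lab d F M ρ c₀ ξ → (∀ s ∈ S, |(s : ℝ) - c₀| ≤ ρ * M / 4) →
      (∀ s ∈ S, 0 ≤ m s) → ∑ s ∈ S, m s ≤ 1 → AC S m M cL c' →
        mass S m (fun s => RS (F - C s) M y < ll y - ll M - ε₁ * Real.sqrt (ll y)) ≤ ε₁)
    (hρ : 0 < ρ) (hε₁0 : 0 ≤ ε₁) (i : ℤ) :
    mass S m (fun s => (⌊(s : ℝ) / (ρ * M / 8)⌋ = i ∧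
      (∀ z : ℂ, aeval z (derivative F) = 0 → η * M < |(s : ℝ) - (aeval z F).re|)) ∧
      ε * Real.sqrt (ll y) < |RS (F - C s) M y - (ll y - ll M)|) ≤ 2 * ε₁ := by
  classical
  have hw : 0 < ρ * M / 8 := by positivity
  by_cases hex : ∃ s₀ ∈ S, ⌊(s₀ : ℝ) / (ρ * M / 8)⌋ = i ∧
      (∀ z : ℂ, aeval z (derivative F) = 0 → η * M < |(s₀ : ℝ) - (aeval z F).re|)
  · obtain ⟨s₀, hs₀, hi, hall⟩ := hex
    obtain ⟨ξ, hξ⟩ := hroots F M R (s₀ : ℝ) hsc hM0 (hS s₀ hs₀) (by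
      intro z hz
      have h1 := hall z hz
      have h2 : |(aeval z F - ((s₀ : ℝ) : ℂ)).re| ≤ ‖aeval z F - ((s₀ : ℝ) : ℂ)‖ :=
        Complex.abs_re_le_norm _
      rw [Complex.sub_re, Complex.ofReal_re, abs_sub_comm] at h2
      linarith)
    set T := S.filter (fun s : ℤ => ⌊(s : ℝ) / (ρ * M / 8)⌋ = i) with hT
    have hTS : T ⊆ S := Finset.filter_subset _ _
    have h1 : ∀ s ∈ T, |(s : ℝ) - (s₀ : ℝ)| ≤ ρ * M / 4 := by
      intro s hs
      have h2 := (Finset.mem_filter.1 hs).2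
      have h3 := same_cell hw (h2.trans hi.symm)
      linarith
    have h2 : ∀ s ∈ T, 0 ≤ m s := fun s hs => hm s (hTS hs)
    have h3 : ∑ s ∈ T, m s ≤ 1 :=
      (Finset.sum_le_sum_of_subset_of_nonneg hTS fun s hs _ => hm s hs).trans hm1
    have h4 : ∀ c₂, c ≤ c₂ → AC T m M c₂ c' := by
      intro c₂ hc₂ A hA hcard
      refine hAC A (hA.trans hTS) (hcard.trans ?_)
      exact Real.rpow_le_rpow_of_exponent_le hM1 (by linarith)
    have h5 := hU s₀ ξ T hξ h1 h2 h3 (h4 cU hcU)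
    have h6 := hL s₀ ξ T hξ h1 h2 h3 (h4 cL hcL)
    have h7 : mass S m (fun s => (⌊(s : ℝ) / (ρ * M / 8)⌋ = i ∧
        (∀ z : ℂ, aeval z (derivative F) = 0 → η * M < |(s : ℝ) - (aeval z F).re|)) ∧
        ε * Real.sqrt (ll y) < |RS (F - C s) M y - (ll y - ll M)|) ≤
        mass T m (fun s => ε * Real.sqrt (ll y) < |RS (F - C s) M y - (ll y - ll M)|) := by
      rw [hT, mass_sub]
      exact mass_mono hm fun s _ h => ⟨h.1.1, h.2⟩
    have h8 : mass T m (fun s => ε * Real.sqrt (ll y) < |RS (F - C s) M y - (ll y - ll M)|) ≤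
        mass T m (fun s => ll y - ll M + ε₁ * Real.sqrt (ll y) < RS (F - C s) M y) +
        mass T m (fun s => RS (F - C s) M y < ll y - ll M - ε₁ * Real.sqrt (ll y)) := by
      refine mass_two h2 fun s _ h => ?_
      have h9 : ε₁ * Real.sqrt (ll y) ≤ ε * Real.sqrt (ll y) :=
        mul_le_mul_of_nonneg_right hε₁ (Real.sqrt_nonneg _)
      rcases lt_abs.1 h with h | h
      · left; linarith
      · right; linarith
    linarith
  · push Not at hex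
    have h1 : mass S m (fun s => (⌊(s : ℝ) / (ρ * M / 8)⌋ = i ∧
        (∀ z : ℂ, aeval z (derivative F) = 0 → η * M < |(s : ℝ) - (aeval z F).re|)) ∧
        ε * Real.sqrt (ll y) < |RS (F - C s) M y - (ll y - ll M)|) = 0 := by
      refine mass_zero fun s hs hh => ?_
      obtain ⟨z, hz, hz2⟩ := hex s hs hh.1.1
      exact absurd (hh.1.2 z hz) (not_lt.2 hz2)
    rw [h1]
    linarith

theorem main2 (hR : S_ROOTS) (hU : S_CUP) (hL : S_CLOW) : S_LARGE2 := by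
  classical
  intro d C0 hd hC0
  obtain ⟨cU, hcU0, hcU1, hU⟩ := hU d hd
  obtain ⟨cL, hcL0, hcL1, hL⟩ := hL d hd
  refine ⟨min cU cL, lt_min hcU0 hcL0, (min_le_left _ _).trans_lt hcU1, ?_⟩
  intro c' ε η hc' hε hη
  obtain ⟨ρ, M₀, hρ, hM₀, hroots⟩ := hR d C0 η hd hC0 hη
  obtain ⟨B, hB⟩ := exists_nat_ge (8 * C0 / ρ + 1)
  set N : ℕ := 2 * B + 1 with hN
  have hN0 : (0 : ℝ) < N := by
    rw [hN]
    positivity
  have hN1 : (1 : ℝ) ≤ N := by
    rw [hN]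
    push_cast
    have : (0 : ℝ) ≤ B := by positivity
    linarith
  set ε₁ : ℝ := ε / (4 * N) with hε₁
  have hε₁0 : 0 < ε₁ := by positivity
  have hε₁ε : ε₁ ≤ ε := by
    rw [hε₁, div_le_iff₀ (by positivity)]
    nlinarith
  obtain ⟨MU, hMU⟩ := hU ρ c' ε₁ hρ hc' hε₁0
  obtain ⟨ML, hML⟩ := hL ρ c' ε₁ hρ hc' hε₁0
  refine ⟨max (max MU ML) (max M₀ 1), ?_⟩
  intro F M R y S m hsc hM hMy hS hm hm1 hAC hcrit
  have hM1 : MU ≤ M := ((le_max_left _ _).trans (le_max_left _ _)).trans hM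
  have hM2 : ML ≤ M := ((le_max_right _ _).trans (le_max_left _ _)).trans hM
  have hM3 : M₀ ≤ M := ((le_max_left _ _).trans (le_max_right _ _)).trans hM
  have hM4 : 1 ≤ M := ((le_max_right _ _).trans (le_max_right _ _)).trans hM
  have hw : 0 < ρ * M / 8 := by positivity
  have hd0 : (0 : ℝ) < d := by exact_mod_cast hd
  -- the critical points
  have hF' : (derivative F).map (Int.castRingHom ℂ) ≠ 0 := by
    intro h0
    have h1 : derivative F = 0 := by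
      rw [Polynomial.map_eq_zero_iff (RingHom.injective_int (Int.castRingHom ℂ))] at h0
      exact h0
    have h2 := Polynomial.derivative_eq_zero.1 h1
    rw [hsc.deg] at h2
    omega
  set Z : Finset ℂ := ((derivative F).map (Int.castRingHom ℂ)).roots.toFinset with hZ
  have hZc : (Z.card : ℝ) ≤ d := by
    have h1 : Z.card ≤ ((derivative F).map (Int.castRingHom ℂ)).natDegree :=
      (Multiset.toFinset_card_le _).trans (card_roots' _)
    have h2 : ((derivative F).map (Int.castRingHom ℂ)).natDegree ≤ d := by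
      refine natDegree_map_le.trans ?_
      have := natDegree_derivative_le F
      rw [hsc.deg] at this
      omega
    exact_mod_cast h1.trans h2
  have hZm : ∀ z : ℂ, aeval z (derivative F) = 0 → z ∈ Z := by
    intro z hz
    rw [hZ, Multiset.mem_toFinset, mem_roots hF', IsRoot.def, eval_map]
    rwa [aeval_def] at hz
  -- split
  have h1 : mass S m (fun s => ε * Real.sqrt (ll y) < |RS (F - C s) M y - (ll y - ll M)|) ≤
      mass S m (fun s => ∃ z ∈ Z, |(s : ℝ) - (aeval z F).re| ≤ η * M) +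
      mass S m (fun s => (∀ z : ℂ, aeval z (derivative F) = 0 →
        η * M < |(s : ℝ) - (aeval z F).re|) ∧
        ε * Real.sqrt (ll y) < |RS (F - C s) M y - (ll y - ll M)|) := by
    refine mass_two hm fun s _ h => ?_
    by_cases h2 : ∃ z ∈ Z, |(s : ℝ) - (aeval z F).re| ≤ η * M
    · exact Or.inl h2
    · right
      push Not at h2
      exact ⟨fun z hz => h2 z (hZm z hz), h⟩
  have h2 : mass S m (fun s => ∃ z ∈ Z, |(s : ℝ) - (aeval z F).re| ≤ η * M) ≤ ε / 4 := by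
    refine (mass_cover hm Z (fun z s => |(s : ℝ) - (aeval z F).re| ≤ η * M)
      fun s _ h => h).trans ?_
    refine (Finset.sum_le_sum fun z _ => hcrit (aeval z F).re).trans ?_
    rw [Finset.sum_const, nsmul_eq_mul]
    calc (Z.card : ℝ) * (ε / (4 * d)) ≤ d * (ε / (4 * d)) :=
          mul_le_mul_of_nonneg_right hZc (by positivity)
      _ = ε / 4 := by field_simp
  have h3 : mass S m (fun s => (∀ z : ℂ, aeval z (derivative F) = 0 →
        η * M < |(s : ℝ) - (aeval z F).re|) ∧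
        ε * Real.sqrt (ll y) < |RS (F - C s) M y - (ll y - ll M)|) ≤ ε / 2 := by
    refine (mass_cover hm (Finset.Icc (-(B : ℤ)) B)
      (fun i s => (⌊(s : ℝ) / (ρ * M / 8)⌋ = i ∧
      (∀ z : ℂ, aeval z (derivative F) = 0 → η * M < |(s : ℝ) - (aeval z F).re|)) ∧
      ε * Real.sqrt (ll y) < |RS (F - C s) M y - (ll y - ll M)|) ?_).trans ?_
    · intro s hs h
      refine ⟨⌊(s : ℝ) / (ρ * M / 8)⌋, cell_mem (C1 := 8 * C0 / ρ) B hw ?_ hB, ⟨rfl, h.1⟩, h.2⟩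
      refine (hS s hs).trans (le_of_eq ?_)
      field_simp
    · refine (Finset.sum_le_sum fun i _ => one_cell (cU := cU) (cL := cL) hε₁ε (min_le_left _ _)
        (min_le_right _ _) hM4 hroots hsc hM3 hS hm hm1 hAC
        (fun c₀ ξ T hξ => hMU F M c₀ y ξ T m hξ hM1 hMy)
        (fun c₀ ξ T hξ => hML F M c₀ y ξ T m hξ hM2 hMy) hρ hε₁0.le i).trans ?_
      rw [Finset.sum_const, nsmul_eq_mul, Int.card_Icc]
      have h4 : (((B : ℤ) + 1 - -(B : ℤ)).toNat : ℝ) = N := by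
        have : ((B : ℤ) + 1 - -(B : ℤ)).toNat = 2 * B + 1 := by omega
        rw [this, hN]
      rw [h4, hε₁]
      apply le_of_eq
      field_simp
      ring
  linarith

/-- the form in the specification -/
theorem main (hR : S_ROOTS) (hU : S_CUP) (hL : S_CLOW) : S_LARGE := main2 hR hU hL

end Pool.Agent.Helper12.EP.Large
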