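import Pool.Agent.Helper20.EP.Spec3
import Pool.Agent.Helper12.EP.DualA

/-!
# EP swarm, parts MERT and OMR
-/

set_option autoImplicit false

open Filter Topology

namespace Pool.Agent.Helper12.EP.Mert

open Pool.Agent.Helper20.EP Pool.Agent.Helper12.EP.DualA

theorem mert : S_MERT := by
  obtain ⟨C, hC0, hC⟩ := mert_inv
  refine ⟨C + 2, fun x hx => ?_⟩
  rcases le_or_gt 3 x with h | h
  · exact (hC x h).trans (by linarith)
  · have h1 : primesLE x = {2} := by
      ext p
      rw [mem_primesLE (by linarith), Finset.mem_singleton]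
      constructor
      · rintro ⟨h2, h3⟩
        have h4 : (p : ℝ) < 3 := by linarith
        have h5 : p < 3 := by exact_mod_cast h4
        have := h2.two_le
        omega
      · rintro rfl
        exact ⟨Nat.prime_two, by exact_mod_cast hx⟩
    rw [h1, Finset.sum_singleton]
    have hl2 := Real.log_two_gt_d9
    have h2 : Real.log 2 ≤ Real.log x := Real.log_le_log (by norm_num) hx
    have h3 : Real.log x ≤ 2 := by
      have h4 : Real.log x ≤ Real.log (Real.exp 2) := by
        refine Real.log_le_log (by linarith) ?_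
        have := Real.add_one_le_exp (2 : ℝ)
        linarith
      rwa [Real.log_exp] at h4
    have h4 : ll x ≤ 1 := by
      unfold ll
      have := Real.log_le_sub_one_of_pos (by linarith : 0 < Real.log x)
      linarith
    have h5 : -1 ≤ ll x := by
      unfold ll
      have h6 := Real.one_sub_inv_le_log_of_pos (by linarith : 0 < Real.log x)
      have h7 : (Real.log x)⁻¹ ≤ 2 := by
        rw [inv_le_comm₀ (by linarith) (by norm_num)]
        linarith
      linarith
    rw [abs_le]
    push_cast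
    constructor <;> linarith

lemma log_small (A ε : ℝ) (hε : 0 < ε) :
    ∀ᶠ u : ℝ in atTop, Real.log u + A ≤ ε * Real.sqrt u := by
  have h1 : ∀ᶠ u : ℝ in atTop, ‖Real.log u‖ ≤ (ε / 2) * ‖u ^ (1 / 2 : ℝ)‖ :=
    (isLittleO_log_rpow_atTop (by norm_num : (0 : ℝ) < 1 / 2)).bound (by positivity)
  have h2 : ∀ᶠ u : ℝ in atTop, A / (ε / 2) ≤ Real.sqrt u :=
    Real.tendsto_sqrt_atTop.eventually_ge_atTop _
  filter_upwards [h1, h2, eventually_ge_atTop (0 : ℝ)] with u h1 h2 h3
  rw [← Real.sqrt_eq_rpow, Real.norm_of_nonneg (Real.sqrt_nonneg u)] at h1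
  have h4 := (le_abs_self _).trans h1
  rw [div_le_iff₀ (by positivity)] at h2
  linarith

lemma omega_le (n : ℕ) (hn : 1 ≤ n) : (n.primeFactors.card : ℝ) ≤ 2 * Real.log n := by
  have h1 : 2 ^ n.primeFactors.card ≤ n := by
    calc 2 ^ n.primeFactors.card = ∏ p ∈ n.primeFactors, 2 := by rw [Finset.prod_const]
      _ ≤ ∏ p ∈ n.primeFactors, p :=
          Finset.prod_le_prod' fun p hp => (Nat.prime_of_mem_primeFactors hp).two_le
      _ ≤ n := Nat.le_of_dvd hn (Nat.prod_primeFactors_dvd n)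
  have h2 : (2 : ℝ) ^ n.primeFactors.card ≤ n := by exact_mod_cast h1
  have h3 := Real.log_le_log (by positivity) h2
  rw [Real.log_pow] at h3
  have h4 := Real.log_two_gt_d9
  have h5 : (0 : ℝ) ≤ n.primeFactors.card := by positivity
  nlinarith

theorem omr (hM : S_MERT) : S_OMR := by
  intro ε hε
  obtain ⟨C, hC⟩ := hM
  have h1 : ∀ᶠ N : ℕ in atTop, Real.log (ll N) + (C + 10) ≤ ε * Real.sqrt (ll N) :=
    ((Real.tendsto_log_atTop.comp Real.tendsto_log_atTop).comp
      tendsto_natCast_atTop_atTop).eventually (log_small (C + 10) ε hε)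
  have h2 : ∀ᶠ N : ℕ in atTop, 4 ≤ ll N :=
    ((Real.tendsto_log_atTop.comp Real.tendsto_log_atTop).comp
      tendsto_natCast_atTop_atTop).eventually_ge_atTop 4
  have h3 : ∀ᶠ N : ℕ in atTop, 1 ≤ Real.log N :=
    (Real.tendsto_log_atTop.comp tendsto_natCast_atTop_atTop).eventually_ge_atTop 1
  obtain ⟨N₀, hN₀⟩ := (h1.and (h2.and h3)).exists_forall_of_atTop
  refine ⟨N₀, fun N hN n hn1 hn2 => ?_⟩
  obtain ⟨h1, h2, h3⟩ := hN₀ N hN
  refine le_trans ?_ h1
  set L := Real.log N with hL
  have hlogn : Real.log n ≤ 2 * L := by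
    have h4 : (n : ℝ) ≤ (N : ℝ) ^ 2 := by exact_mod_cast hn2
    have h5 := Real.log_le_log (by exact_mod_cast hn1) h4
    rwa [Real.log_pow] at h5
  set Z : ℝ := 4 * L with hZ
  have hZ4 : 4 ≤ Z := by linarith
  have h5 : ∑ p ∈ n.primeFactors, (1 : ℝ) / p =
      ∑ p ∈ n.primeFactors.filter (fun p : ℕ => (p : ℝ) ≤ Z), (1 : ℝ) / p +
      ∑ p ∈ n.primeFactors.filter (fun p : ℕ => ¬ (p : ℝ) ≤ Z), (1 : ℝ) / p :=
    (Finset.sum_filter_add_sum_filter_not _ _ _).symm
  have h6 : ∑ p ∈ n.primeFactors.filter (fun p : ℕ => (p : ℝ) ≤ Z), (1 : ℝ) / p ≤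
      ll Z + C := by
    have h7 := (abs_le.1 (hC Z (by linarith))).2
    refine le_trans ?_ (by linarith : ∑ p ∈ primesLE Z, (1 : ℝ) / p ≤ ll Z + C)
    refine Finset.sum_le_sum_of_subset_of_nonneg ?_ fun p _ _ => by positivity
    intro p hp
    rw [Finset.mem_filter] at hp
    exact (mem_primesLE (by linarith)).2 ⟨Nat.prime_of_mem_primeFactors hp.1, hp.2⟩
  have h7 : ∑ p ∈ n.primeFactors.filter (fun p : ℕ => ¬ (p : ℝ) ≤ Z), (1 : ℝ) / p ≤ 1 := by
    calc ∑ p ∈ n.primeFactors.filter (fun p : ℕ => ¬ (p : ℝ) ≤ Z), (1 : ℝ) / p ≤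
        ∑ p ∈ n.primeFactors.filter (fun p : ℕ => ¬ (p : ℝ) ≤ Z), 1 / Z := by
          refine Finset.sum_le_sum fun p hp => ?_
          have := (Finset.mem_filter.1 hp).2
          exact one_div_le_one_div_of_le (by linarith) (by linarith)
      _ = ((n.primeFactors.filter (fun p : ℕ => ¬ (p : ℝ) ≤ Z)).card : ℝ) * (1 / Z) := by
          rw [Finset.sum_const, nsmul_eq_mul]
      _ ≤ (2 * Real.log n) * (1 / Z) := by
          refine mul_le_mul_of_nonneg_right ?_ (by positivity)
          refine le_trans ?_ (omega_le n hn1)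
          exact_mod_cast Finset.card_le_card (Finset.filter_subset _ _)
      _ ≤ 1 := by
          rw [mul_one_div, div_le_one (by linarith)]
          linarith
  have h8 : ll Z ≤ Real.log (ll N) + 2 := by
    have h9 : Real.log Z = Real.log 4 + ll N := by
      rw [hZ, Real.log_mul (by norm_num) (by linarith)]
      rfl
    have h10 : Real.log 4 ≤ 4 := by
      have := Real.log_le_sub_one_of_pos (by norm_num : (0 : ℝ) < 4)
      linarith
    have h11 : ll Z ≤ Real.log (2 * ll N) := by
      unfold ll at *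
      exact Real.log_le_log (by rw [h9]; have := Real.log_nonneg (by norm_num : (1:ℝ) ≤ 4); linarith)
        (by rw [h9]; linarith)
    rw [Real.log_mul (by norm_num) (by linarith)] at h11
    have := Real.log_two_lt_d9
    linarith
  linarith

end Pool.Agent.Helper12.EP.Mert
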