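import Pool.Agent.Helper20.EP.Spec3
import Pool.Agent.Helper12.EP.DualA

/-!
# EP swarm, part SMALL: the mean over the primes `≤ M`
-/

set_option autoImplicit false

open Polynomial Filter Topology

namespace Pool.Agent.Helper12.EP.Small

open Pool.Agent.Helper20.EP Pool.Agent.Helper12.EP.DualA

lemma rho_le_self (g : ℤ[X]) (p : ℕ) : rho g p ≤ p := by
  unfold rho
  exact (Finset.card_filter_le _ _).trans (by simp)

lemma lam_nonneg (F : ℤ[X]) (s : ℤ) (p : ℕ) : 0 ≤ lam F s p := by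
  unfold lam
  positivity

lemma lam_le_one (F : ℤ[X]) (s : ℤ) (p : ℕ) : lam F s p ≤ 1 := by
  unfold lam
  rcases Nat.eq_zero_or_pos p with h | h
  · simp [h]
  · rw [div_le_one (by exact_mod_cast h)]
    exact_mod_cast rho_le_self _ _

/-- content primes -/
def Cont (F : ℤ[X]) (p : ℕ) : Prop := ∀ j, 1 ≤ j → (p : ℤ) ∣ F.coeff j

lemma rho_le_deg (F : ℤ[X]) (s : ℤ) (p : ℕ) (hp : p.Prime) (h : ¬ Cont F p) :
    rho (F - C s) p ≤ F.natDegree := by
  classical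
  have := Fact.mk hp
  set G := (F - C s).map (Int.castRingHom (ZMod p)) with hG
  have hG0 : G ≠ 0 := by
    unfold Cont at h
    push Not at h
    obtain ⟨j, hj, hj2⟩ := h
    intro h0
    have h1 : G.coeff j = 0 := by rw [h0, coeff_zero]
    rw [hG, coeff_map, coeff_sub, coeff_C, if_neg (by omega), sub_zero, eq_intCast,
      ZMod.intCast_zmod_eq_zero_iff_dvd] at h1
    exact hj2 h1
  have hinj : rho (F - C s) p ≤ G.roots.toFinset.card := by
    unfold rho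
    refine Finset.card_le_card_of_injOn (fun x : ℕ => (x : ZMod p)) ?_ ?_
    · intro x hx
      simp only [Finset.coe_filter, Finset.mem_range, Set.mem_ofPred_eq] at hx
      simp only [Finset.mem_coe, Multiset.mem_toFinset]
      rw [mem_roots hG0, IsRoot.def, hG, eval_natCast_map, eq_intCast,
        ZMod.intCast_zmod_eq_zero_iff_dvd]
      exact hx.2
    · intro x hx y hy hxy
      simp only [Finset.coe_filter, Finset.mem_range, Set.mem_ofPred_eq] at hx hy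
      exact Nat.ModEq.eq_of_lt_of_lt ((ZMod.natCast_eq_natCast_iff _ _ _).1 hxy) hx.1 hy.1
  calc rho (F - C s) p ≤ G.roots.toFinset.card := hinj
    _ ≤ G.natDegree := (Multiset.toFinset_card_le _).trans (card_roots' _)
    _ ≤ (F - C s).natDegree := natDegree_map_le
    _ = F.natDegree := natDegree_sub_C

lemma lam_le_deg (F : ℤ[X]) (s : ℤ) (p D : ℕ) (hp : p.Prime) (h : ¬ Cont F p)
    (hD : F.natDegree ≤ D) : lam F s p ≤ D / p := by
  unfold lam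
  refine div_le_div_of_nonneg_right ?_ (by positivity)
  exact_mod_cast (rho_le_deg F s p hp h).trans hD

lemma sum_inv_sq (P : Finset ℕ) (hP : ∀ p ∈ P, 2 ≤ p) : ∑ p ∈ P, 1 / (p : ℝ) ^ 2 ≤ 1 := by
  have h1 : P ⊆ Finset.Ioc 1 (P.sup id + 1) := by
    intro p hp
    rw [Finset.mem_Ioc]
    have h2 : p ≤ P.sup id := Finset.le_sup (f := id) hp
    have := hP p hp
    omega
  have h2 : ∑ p ∈ P, 1 / (p : ℝ) ^ 2 ≤ ∑ p ∈ Finset.Ioc 1 (P.sup id + 1), ((p : ℝ) ^ 2)⁻¹ := by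
    simp only [one_div]
    exact Finset.sum_le_sum_of_subset_of_nonneg h1 fun _ _ _ => by positivity
  refine h2.trans ((sum_Ioc_inv_sq_le_sub one_ne_zero (by omega)).trans ?_)
  have : (0 : ℝ) ≤ (((P.sup id + 1 : ℕ) : ℝ))⁻¹ := by positivity
  simp only [Nat.cast_one, inv_one]
  linarith

/-- second moment -/
lemma second_moment (Ω : Finset ℕ) (P : Finset ℕ) (a : ℕ → ℕ → ℝ) (E D : ℝ) (hE : 0 ≤ E)
    (hD : 0 ≤ D) (hP : ∀ p ∈ P, 2 ≤ p) (ha0 : ∀ n ∈ Ω, ∀ p ∈ P, 0 ≤ a n p)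
    (ha1 : ∀ n ∈ Ω, ∀ p ∈ P, a n p ≤ 1) (ct : ℕ → Prop) [DecidablePred ct]
    (hct : ∀ n ∈ Ω, ∀ p ∈ P, ¬ ct p → a n p ≤ D / p)
    (h1 : ∀ p ∈ P, |∑ n ∈ Ω, a n p - Ω.card / p| ≤ E)
    (h2 : ∀ p ∈ P, ∀ p' ∈ P, p ≠ p' →
      |∑ n ∈ Ω, a n p * a n p' - Ω.card / ((p : ℝ) * p')| ≤ E) :
    ∑ n ∈ Ω, (∑ p ∈ P, (a n p - 1 / p)) ^ 2 ≤ 3 * E * P.card ^ 2 + (D + 1) * E * P.card +
      (D + 1) * Ω.card * ∑ p ∈ P, 1 / (p : ℝ) ^ 2 + Ω.card * ∑ p ∈ P.filter ct, 1 / (p : ℝ) := by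
  have hpos : ∀ p ∈ P, (0 : ℝ) < p ∧ (1 : ℝ) ≤ p := by
    intro p hp
    have h3 : (2 : ℝ) ≤ p := by exact_mod_cast hP p hp
    exact ⟨by linarith, by linarith⟩
  have hexp : ∑ n ∈ Ω, (∑ p ∈ P, (a n p - 1 / p)) ^ 2 =
      ∑ p ∈ P, ∑ p' ∈ P, ∑ n ∈ Ω, (a n p - 1 / p) * (a n p' - 1 / p') := by
    calc ∑ n ∈ Ω, (∑ p ∈ P, (a n p - 1 / p)) ^ 2 =
        ∑ n ∈ Ω, ∑ p ∈ P, ∑ p' ∈ P, (a n p - 1 / p) * (a n p' - 1 / p') := by
          refine Finset.sum_congr rfl fun n _ => ?_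
          rw [sq, Finset.sum_mul_sum]
      _ = ∑ p ∈ P, ∑ n ∈ Ω, ∑ p' ∈ P, (a n p - 1 / p) * (a n p' - 1 / p') := Finset.sum_comm
      _ = _ := Finset.sum_congr rfl fun p _ => Finset.sum_comm
  have hpair : ∀ p ∈ P, ∀ p' ∈ P, ∑ n ∈ Ω, (a n p - 1 / p) * (a n p' - 1 / p') ≤
      3 * E + if p = p' then ((D + 1) * E + (D + 1) * Ω.card * (1 / (p : ℝ) ^ 2) +
        if ct p then Ω.card * (1 / (p : ℝ)) else 0) else 0 := by
    intro p hp p' hp'
    obtain ⟨hp0, hp1⟩ := hpos p hp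
    obtain ⟨hp0', hp1'⟩ := hpos p' hp'
    have he1 := abs_le.1 (h1 p hp)
    have he1' := abs_le.1 (h1 p' hp')
    by_cases hpp : p = p'
    · subst hpp
      rw [if_pos rfl]
      have h3 : ∑ n ∈ Ω, (a n p - 1 / p) * (a n p - 1 / p) ≤
          ∑ n ∈ Ω, a n p * a n p + Ω.card * (1 / (p : ℝ) ^ 2) := by
        have h4 : (Ω.card : ℝ) * (1 / (p : ℝ) ^ 2) = ∑ n ∈ Ω, (1 / (p : ℝ) ^ 2) := by
          rw [Finset.sum_const, nsmul_eq_mul]
        rw [h4, ← Finset.sum_add_distrib]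
        refine Finset.sum_le_sum fun n hn => ?_
        have h5 : 0 ≤ a n p * (1 / (p : ℝ)) := mul_nonneg (ha0 n hn p hp) (by positivity)
        have h6 : (a n p - 1 / p) * (a n p - 1 / p) =
            a n p * a n p + 1 / (p : ℝ) ^ 2 - 2 * (a n p * (1 / (p : ℝ))) := by
          field_simp
          ring
        rw [h6]
        linarith
      by_cases hc : ct p
      · rw [if_pos hc]
        have h5 : ∑ n ∈ Ω, a n p * a n p ≤ ∑ n ∈ Ω, a n p :=
          Finset.sum_le_sum fun n hn =>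
            mul_le_of_le_one_left (ha0 n hn p hp) (ha1 n hn p hp)
        have h6 : (Ω.card : ℝ) / p = Ω.card * (1 / (p : ℝ)) := by ring
        have h7 : 0 ≤ D * E := mul_nonneg hD hE
        have h8 : 0 ≤ D * Ω.card * (1 / (p : ℝ) ^ 2) := by positivity
        rw [h6] at he1
        have h9 : (D + 1) * E = D * E + E := by ring
        have h10 : (D + 1) * Ω.card * (1 / (p : ℝ) ^ 2) =
          D * Ω.card * (1 / (p : ℝ) ^ 2) + Ω.card * (1 / (p : ℝ) ^ 2) := by ring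
        rw [h9, h10]
        linarith [he1.2]
      · rw [if_neg hc]
        have h5 : ∑ n ∈ Ω, a n p * a n p ≤ D / p * ∑ n ∈ Ω, a n p := by
          rw [Finset.mul_sum]
          exact Finset.sum_le_sum fun n hn =>
            mul_le_mul_of_nonneg_right (hct n hn p hp hc) (ha0 n hn p hp)
        have h6 : D / p * ∑ n ∈ Ω, a n p ≤ D / p * (Ω.card / p + E) :=
          mul_le_mul_of_nonneg_left (by linarith [he1.2]) (by positivity)
        have h7 : D / p * (Ω.card / p + E) = D * Ω.card * (1 / (p : ℝ) ^ 2) + D / p * E := by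
          field_simp
        have h8 : D / p * E ≤ D * E :=
          mul_le_mul_of_nonneg_right (div_le_self hD hp1) hE
        have h9 : (D + 1) * E = D * E + E := by ring
        have h10 : (D + 1) * Ω.card * (1 / (p : ℝ) ^ 2) =
          D * Ω.card * (1 / (p : ℝ) ^ 2) + Ω.card * (1 / (p : ℝ) ^ 2) := by ring
        rw [h9, h10]
        linarith
    · rw [if_neg hpp, add_zero]
      have he2 := abs_le.1 (h2 p hp p' hp' hpp)
      have h3 : ∑ n ∈ Ω, (a n p - 1 / p) * (a n p' - 1 / p') =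
          (∑ n ∈ Ω, a n p * a n p' - Ω.card / ((p : ℝ) * p')) -
          (1 / (p' : ℝ)) * (∑ n ∈ Ω, a n p - Ω.card / p) -
          (1 / (p : ℝ)) * (∑ n ∈ Ω, a n p' - Ω.card / p') := by
        have h4 : ∀ n ∈ Ω, (a n p - 1 / p) * (a n p' - 1 / p') =
            a n p * a n p' - (1 / (p' : ℝ)) * a n p - (1 / (p : ℝ)) * a n p' +
              1 / ((p : ℝ) * p') := by
          intro n _
          field_simp
          ring
        rw [Finset.sum_congr rfl h4, Finset.sum_add_distrib, Finset.sum_sub_distrib,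
          Finset.sum_sub_distrib, ← Finset.mul_sum, ← Finset.mul_sum, Finset.sum_const,
          nsmul_eq_mul]
        field_simp
        ring
      rw [h3]
      have h4 : |(1 / (p' : ℝ)) * (∑ n ∈ Ω, a n p - Ω.card / p)| ≤ E := by
        rw [abs_mul, abs_of_nonneg (by positivity)]
        calc 1 / (p' : ℝ) * |∑ n ∈ Ω, a n p - Ω.card / p| ≤ 1 * E := by
              refine mul_le_mul ?_ (h1 p hp) (abs_nonneg _) zero_le_one
              rw [div_le_one hp0']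
              exact hp1'
          _ = E := one_mul E
      have h5 : |(1 / (p : ℝ)) * (∑ n ∈ Ω, a n p' - Ω.card / p')| ≤ E := by
        rw [abs_mul, abs_of_nonneg (by positivity)]
        calc 1 / (p : ℝ) * |∑ n ∈ Ω, a n p' - Ω.card / p'| ≤ 1 * E := by
              refine mul_le_mul ?_ (h1 p' hp') (abs_nonneg _) zero_le_one
              rw [div_le_one hp0]
              exact hp1
          _ = E := one_mul E
      have h6 := abs_le.1 h4
      have h7 := abs_le.1 h5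
      linarith [he2.2, h6.1, h7.1]
  rw [hexp]
  refine (Finset.sum_le_sum fun p hp => Finset.sum_le_sum fun p' hp' => hpair p hp p' hp').trans ?_
  apply le_of_eq
  have h3 : ∀ p ∈ P, ∑ p' ∈ P, (3 * E + if p = p' then ((D + 1) * E +
      (D + 1) * Ω.card * (1 / (p : ℝ) ^ 2) + if ct p then Ω.card * (1 / (p : ℝ)) else 0) else 0) =
      3 * E * P.card + ((D + 1) * E + (D + 1) * Ω.card * (1 / (p : ℝ) ^ 2) +
        if ct p then Ω.card * (1 / (p : ℝ)) else 0) := by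
    intro p hp
    rw [Finset.sum_add_distrib, Finset.sum_const, nsmul_eq_mul, Finset.sum_ite_eq, if_pos hp]
    ring
  rw [Finset.sum_congr rfl h3]
  simp only [Finset.sum_add_distrib, Finset.sum_const, nsmul_eq_mul, Finset.mul_sum,
    Finset.sum_filter, mul_ite, mul_zero]
  ring_nf

/-! ### Cells -/

lemma cells_sum (f : ℝ[X]) (N q : ℕ) (F : ℤ[X]) (S : Finset ℤ)
    (hS : ∀ n ∈ Finset.Icc 1 N, sn f q F n ∈ S) (g : ℤ → ℝ) :
    ∑ n ∈ Finset.Icc 1 N, g (sn f q F n) = ∑ s ∈ S, ((cell f N q F s).card : ℝ) * g s := by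
  rw [← Finset.sum_fiberwise_of_maps_to (g := fun n => sn f q F n) hS]
  refine Finset.sum_congr rfl fun s _ => ?_
  have h1 : ∀ n ∈ (Finset.Icc 1 N).filter (fun n => sn f q F n = s), g (sn f q F n) = g s := by
    intro n hn
    rw [(Finset.mem_filter.1 hn).2]
  rw [Finset.sum_congr rfl h1, Finset.sum_const, nsmul_eq_mul]
  rfl

lemma prod_bound (hC : S_DIVC) (f : ℝ[X]) (N q : ℕ) (F : ℤ[X]) (S : Finset ℤ)
    (hS : ∀ n ∈ Finset.Icc 1 N, sn f q F n ∈ S) (hq : 1 ≤ q) (hdeg : F.natDegree ≤ f.natDegree)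
    (Q : Finset ℕ) (hQ : ∀ p ∈ Q, p.Prime ∧ ¬ p ∣ q) :
    |(((Finset.Icc 1 N).filter fun n : ℕ => ∀ p ∈ Q, (p : ℤ) ∣ ⌊f.eval (n : ℝ)⌋).card : ℝ) -
      ∑ n ∈ Finset.Icc 1 N, ∏ p ∈ Q, lam F (sn f q F n) p| ≤
      S.card * (2 * (4 * f.natDegree + 2) * q * ∏ p ∈ Q, (p : ℝ)) := by
  have h1 : (((Finset.Icc 1 N).filter fun n : ℕ => ∀ p ∈ Q, (p : ℤ) ∣ ⌊f.eval (n : ℝ)⌋).card : ℝ) =
      ∑ s ∈ S, (((cell f N q F s).filter fun n : ℕ =>
        ∀ p ∈ Q, (p : ℤ) ∣ ⌊f.eval (n : ℝ)⌋).card : ℝ) := by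
    rw [Finset.card_eq_sum_card_fiberwise (f := fun n => sn f q F n) (t := S)
      (fun n hn => hS n (Finset.mem_filter.1 hn).1)]
    push_cast
    refine Finset.sum_congr rfl fun s _ => ?_
    congr 2
    unfold cell
    ext n
    simp only [Finset.mem_filter]
    tauto
  have h2 := cells_sum f N q F S hS (fun s => ∏ p ∈ Q, lam F s p)
  rw [h1, h2, ← Finset.sum_sub_distrib]
  refine (Finset.abs_sum_le_sum_abs _ _).trans ?_
  rw [← nsmul_eq_mul]
  exact Finset.sum_le_card_nsmul _ _ _ fun s _ => hC f N q F s Q hq hdeg hQ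

lemma dvd_prod_iff (Q : Finset ℕ) (hQ : ∀ p ∈ Q, p.Prime) (v : ℤ) :
    (∀ p ∈ Q, (p : ℤ) ∣ v) ↔ ((∏ p ∈ Q, p : ℕ) : ℤ) ∣ v := by
  rw [Nat.cast_prod]
  constructor
  · intro h
    refine Finset.prod_dvd_of_coprime ?_ h
    intro p hp p' hp' hpp
    exact Nat.isCoprime_iff_coprime.2 ((Nat.coprime_primes (hQ p hp) (hQ p' hp')).2 hpp)
  · intro h p hp
    exact (Finset.dvd_prod_of_mem (fun p : ℕ => (p : ℤ)) hp).trans h

lemma card_primesLE (x : ℝ) (hx : 0 ≤ x) : ((primesLE x).card : ℝ) ≤ x := by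
  rw [primesLE_eq]
  calc (((Finset.Icc 1 ⌊x⌋₊).filter Nat.Prime).card : ℝ) ≤ ((Finset.Icc 1 ⌊x⌋₊).card : ℝ) := by
        exact_mod_cast Finset.card_filter_le _ _
    _ = (⌊x⌋₊ : ℝ) := by simp
    _ ≤ x := Nat.floor_le hx

/-- number of large prime factors -/
lemma large_factors (n : ℕ) (hn : n ≠ 0) (X L c : ℝ) (hX : 1 < X) (hc : 0 < c)
    (hL : Real.log n ≤ L) (hXc : c * L ≤ Real.log X) (hL0 : 0 ≤ L) (T : Finset ℕ)
    (hT : T ⊆ n.primeFactors) (hT2 : ∀ p ∈ T, X ≤ p) : (T.card : ℝ) ≤ 1 / c := by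
  have hlX : 0 < Real.log X := Real.log_pos hX
  have h1 : ∏ p ∈ T, p ≤ n :=
    Nat.le_of_dvd (Nat.pos_of_ne_zero hn)
      ((Finset.prod_dvd_prod_of_subset _ _ _ hT).trans (Nat.prod_primeFactors_dvd n))
  have h2 : X ^ T.card ≤ n := by
    calc X ^ T.card = ∏ p ∈ T, X := by rw [Finset.prod_const]
      _ ≤ ∏ p ∈ T, (p : ℝ) := Finset.prod_le_prod (fun _ _ => by linarith) hT2
      _ = ((∏ p ∈ T, p : ℕ) : ℝ) := by push_cast; rfl
      _ ≤ n := by exact_mod_cast h1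
  have h3 := Real.log_le_log (by positivity) h2
  rw [Real.log_pow] at h3
  have h4 : (0 : ℝ) ≤ T.card := by positivity
  rw [le_div_iff₀ hc]
  by_contra h5
  push Not at h5
  have h6 : (T.card : ℝ) * (c * L) ≤ T.card * Real.log X := mul_le_mul_of_nonneg_left hXc h4
  rcases hL0.eq_or_lt with h7 | h7
  · rw [← h7] at hL
    have h8 : (T.card : ℝ) * Real.log X ≤ 0 := by linarith
    have h9 : 0 < (T.card : ℝ) := by
      by_contra h10
      have : (T.card : ℝ) = 0 := le_antisymm (not_lt.1 h10) h4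
      rw [this] at h5
      linarith
    nlinarith
  · nlinarith

lemma mem_Pq {q : ℕ} {y : ℝ} (hy : 0 ≤ y) {p : ℕ} :
    p ∈ Pq q y ↔ p.Prime ∧ (p : ℝ) ≤ y ∧ ¬ p ∣ q := by
  unfold Pq
  rw [Finset.mem_filter, mem_primesLE hy]
  tauto

/-- the deterministic part: `W` is the sum over the primes `≤ w = M ^ c₁` -/
lemma det_part (F : ℤ[X]) (q D : ℕ) (s : ℤ) (M w c₁ Cm δ : ℝ) (hq : 1 ≤ q) (hD : 1 ≤ D)
    (hdeg : F.natDegree ≤ D) (hw : w = M ^ c₁) (hw2 : 2 ≤ w) (hM : 1 < M) (hc0 : 0 < c₁)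
    (hc1 : c₁ ≤ 1) (hCm0 : 0 ≤ Cm)
    (hCm : ∀ x : ℝ, 2 ≤ x → |∑ p ∈ primesLE x, (1 : ℝ) / p - ll x| ≤ Cm)
    (hqs : ∑ p ∈ q.primeFactors, (1 : ℝ) / p ≤ δ)
    (hb : F.coeff D ≠ 0) (hb2 : Real.log ((F.coeff D).natAbs : ℝ) ≤ 2 * Real.log M) :
    |mu F q M s - ll M - ∑ p ∈ Pq q w, (lam F s p - 1 / p)| ≤
      |Real.log c₁| + Cm + δ + D * (|Real.log c₁| + 2 * Cm) + 1 / (c₁ / 2) := by
  classical
  have hM0 : 0 < M := by linarith
  have hw0 : 0 < w := by linarith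
  have hlM : 0 < Real.log M := Real.log_pos hM
  have hwM : w ≤ M := by
    rw [hw]
    calc M ^ c₁ ≤ M ^ (1 : ℝ) := Real.rpow_le_rpow_of_exponent_le hM.le hc1
      _ = M := Real.rpow_one M
  have hlw : Real.log w = c₁ * Real.log M := by rw [hw, Real.log_rpow hM0]
  have hllw : ll w = Real.log c₁ + ll M := by
    unfold ll
    rw [hlw, Real.log_mul hc0.ne' hlM.ne']
  have hsplit : mu F q M s = ∑ p ∈ Pq q w, lam F s p +
      ∑ p ∈ (Pq q M).filter (fun p : ℕ => ¬ (p : ℝ) ≤ w), lam F s p := by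
    have h1 : (Pq q M).filter (fun p : ℕ => (p : ℝ) ≤ w) = Pq q w := by
      ext p
      rw [Finset.mem_filter, mem_Pq hM0.le, mem_Pq hw0.le]
      constructor
      · rintro ⟨⟨h1, -, h3⟩, h4⟩
        exact ⟨h1, h4, h3⟩
      · rintro ⟨h1, h2, h3⟩
        exact ⟨⟨h1, h2.trans hwM, h3⟩, h2⟩
    unfold mu
    rw [← h1]
    exact (Finset.sum_filter_add_sum_filter_not _ _ _).symm
  have hrec : ∑ p ∈ Pq q w, (1 : ℝ) / p = ∑ p ∈ primesLE w, (1 : ℝ) / p -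
      ∑ p ∈ (primesLE w).filter (fun p => p ∣ q), (1 : ℝ) / p := by
    have h1 := Finset.sum_filter_add_sum_filter_not (primesLE w) (fun p => p ∣ q)
      (fun p : ℕ => (1 : ℝ) / p)
    unfold Pq
    linarith
  have hdq : ∑ p ∈ (primesLE w).filter (fun p => p ∣ q), (1 : ℝ) / p ≤ δ := by
    refine le_trans ?_ hqs
    refine Finset.sum_le_sum_of_subset_of_nonneg ?_ fun p _ _ => by positivity
    intro p hp
    rw [Finset.mem_filter, mem_primesLE hw0.le] at hp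
    exact Nat.mem_primeFactors.2 ⟨hp.1.1, hp.2, by omega⟩
  have hdq0 : 0 ≤ ∑ p ∈ (primesLE w).filter (fun p => p ∣ q), (1 : ℝ) / p :=
    Finset.sum_nonneg fun p _ => by positivity
  have hrest0 : 0 ≤ ∑ p ∈ (Pq q M).filter (fun p : ℕ => ¬ (p : ℝ) ≤ w), lam F s p :=
    Finset.sum_nonneg fun p _ => lam_nonneg _ _ _
  have hm1 := abs_le.1 (hCm w hw2)
  have hm2 := abs_le.1 (hCm M (hw2.trans hwM))
  have hrest : ∑ p ∈ (Pq q M).filter (fun p : ℕ => ¬ (p : ℝ) ≤ w), lam F s p ≤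
      D * (|Real.log c₁| + 2 * Cm) + 1 / (c₁ / 2) := by
    have h1 : ∀ p ∈ (Pq q M).filter (fun p : ℕ => ¬ (p : ℝ) ≤ w), lam F s p ≤
        D * (1 / (p : ℝ)) + if Cont F p then 1 else 0 := by
      intro p hp
      rw [Finset.mem_filter, mem_Pq hM0.le] at hp
      by_cases hc : Cont F p
      · rw [if_pos hc]
        have h2 : (0 : ℝ) ≤ D * (1 / (p : ℝ)) := by positivity
        linarith [lam_le_one F s p]
      · rw [if_neg hc, add_zero, mul_one_div]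
        exact lam_le_deg F s p D hp.1.1 hc hdeg
    refine (Finset.sum_le_sum h1).trans ?_
    rw [Finset.sum_add_distrib, ← Finset.mul_sum]
    refine add_le_add ?_ ?_
    · refine mul_le_mul_of_nonneg_left ?_ (by positivity)
      have h2 : ∑ p ∈ (Pq q M).filter (fun p : ℕ => ¬ (p : ℝ) ≤ w), 1 / (p : ℝ) ≤
          ∑ p ∈ (primesLE M).filter (fun p : ℕ => ¬ (p : ℝ) ≤ w), 1 / (p : ℝ) := by
        refine Finset.sum_le_sum_of_subset_of_nonneg ?_ fun p _ _ => by positivity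
        exact Finset.filter_subset_filter _ (Finset.filter_subset _ _)
      have h3 : (primesLE M).filter (fun p : ℕ => (p : ℝ) ≤ w) = primesLE w := by
        ext p
        rw [Finset.mem_filter, mem_primesLE hM0.le, mem_primesLE hw0.le]
        constructor
        · rintro ⟨⟨h1, -⟩, h4⟩
          exact ⟨h1, h4⟩
        · rintro ⟨h1, h2⟩
          exact ⟨⟨h1, h2.trans hwM⟩, h2⟩
      have h4 := Finset.sum_filter_add_sum_filter_not (primesLE M) (fun p : ℕ => (p : ℝ) ≤ w)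
        (fun p : ℕ => (1 : ℝ) / p)
      rw [h3] at h4
      have h5 := neg_abs_le (Real.log c₁)
      linarith [hm1.1, hm2.2]
    · rw [← Finset.sum_filter, Finset.sum_const, nsmul_eq_mul, mul_one]
      refine large_factors (F.coeff D).natAbs (by simpa using hb) w (2 * Real.log M) (c₁ / 2)
        (by linarith) (by linarith) hb2 (by rw [hlw]; linarith) (by linarith) _ ?_ ?_
      · intro p hp
        rw [Finset.mem_filter, Finset.mem_filter, mem_Pq hM0.le] at hp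
        refine Nat.mem_primeFactors.2 ⟨hp.1.1.1, ?_, by simpa using hb⟩
        exact Int.natCast_dvd.1 (hp.2 D hD)
      · intro p hp
        rw [Finset.mem_filter, Finset.mem_filter] at hp
        exact (not_le.1 hp.1.2).le
  have hW : ∑ p ∈ Pq q w, (lam F s p - 1 / p) = ∑ p ∈ Pq q w, lam F s p -
      ∑ p ∈ Pq q w, (1 : ℝ) / p := Finset.sum_sub_distrib _ _
  have h5 := neg_abs_le (Real.log c₁)
  have h6 := le_abs_self (Real.log c₁)
  have h7 : 0 ≤ (D : ℝ) * (|Real.log c₁| + 2 * Cm) := by positivity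
  have h8 : 0 ≤ 1 / (c₁ / 2) := by positivity
  rw [hW, hrec, hsplit, abs_le]
  constructor
  · linarith [hm1.1, hm1.2]
  · linarith [hm1.1, hm1.2]

/-- the cells -/
noncomputable def SS (X : ℝ) : Finset ℤ := Finset.Icc (-(⌊X⌋₊ : ℤ)) ⌊X⌋₊

lemma mem_SS {X : ℝ} {s : ℤ} (h : |(s : ℝ)| ≤ X) : s ∈ SS X := by
  have h1 : s.natAbs ≤ ⌊X⌋₊ := by
    refine Nat.le_floor ?_
    rw [Nat.cast_natAbs, Int.cast_abs]
    exact h
  unfold SS
  rw [Finset.mem_Icc]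
  omega

lemma card_SS {X : ℝ} (hX : 1 ≤ X) : ((SS X).card : ℝ) ≤ 3 * X := by
  unfold SS
  rw [Int.card_Icc]
  have h1 : ((⌊X⌋₊ : ℤ) + 1 - -(⌊X⌋₊ : ℤ)).toNat = 2 * ⌊X⌋₊ + 1 := by omega
  rw [h1]
  push_cast
  have := Nat.floor_le (by linarith : 0 ≤ X)
  linarith

lemma prod_moment (hC : S_DIVC) (f : ℝ[X]) (N q : ℕ) (F : ℤ[X]) (M w C0 : ℝ)
    (hdeg : F.natDegree ≤ f.natDegree) (hq : 1 ≤ q) (hqM : (q : ℝ) ≤ M) (hw : 1 ≤ w)
    (hwM : w ^ 4 ≤ M) (hC0 : 1 ≤ C0) (hC3 : 6 * (4 * f.natDegree + 2) * C0 ≤ M)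
    (hMN : M ^ 5 ≤ N) (hs : ∀ n ∈ Finset.Icc 1 N, |(sn f q F n : ℝ)| ≤ C0 * M)
    (hA : ∀ m : ℕ, 1 ≤ m → (m : ℝ) ≤ w ^ 4 →
      |cnt N (fun n => (m : ℤ) ∣ ⌊f.eval (n : ℝ)⌋) - N / m| ≤ N * (w ^ 4)⁻¹)
    (Q : Finset ℕ) (hQ : ∀ p ∈ Q, p.Prime ∧ ¬ p ∣ q) (hQw : ((∏ p ∈ Q, p : ℕ) : ℝ) ≤ w ^ 4) :
    |∑ n ∈ Finset.Icc 1 N, ∏ p ∈ Q, lam F (sn f q F n) p - N / ((∏ p ∈ Q, p : ℕ) : ℝ)| ≤
      2 * N / w ^ 4 := by
  classical
  have hw4 : 1 ≤ w ^ 4 := one_le_pow₀ hw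
  have hM1 : 1 ≤ M := hw4.trans hwM
  have hprod1 : 1 ≤ ∏ p ∈ Q, p :=
    Finset.one_le_prod' fun p hp => (hQ p hp).1.one_lt.le
  have h1 := prod_bound hC f N q F (SS (C0 * M)) (fun n hn => mem_SS (hs n hn)) hq hdeg Q hQ
  have h2 := hA (∏ p ∈ Q, p) hprod1 hQw
  have h3 : (((Finset.Icc 1 N).filter fun n : ℕ =>
      ∀ p ∈ Q, (p : ℤ) ∣ ⌊f.eval (n : ℝ)⌋).card : ℝ) =
      cnt N (fun n => ((∏ p ∈ Q, p : ℕ) : ℤ) ∣ ⌊f.eval (n : ℝ)⌋) := by
    unfold cnt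
    congr 2
    ext n
    simp only [Finset.mem_filter]
    rw [dvd_prod_iff Q (fun p hp => (hQ p hp).1)]
  rw [h3] at h1
  have hC0M : 1 ≤ C0 * M := one_le_mul_of_one_le_of_one_le hC0 hM1
  have h4 : ((SS (C0 * M)).card : ℝ) * (2 * (4 * f.natDegree + 2) * q * ∏ p ∈ Q, (p : ℝ)) ≤
      N / w ^ 4 := by
    have e : (∏ p ∈ Q, (p : ℝ)) = ((∏ p ∈ Q, p : ℕ) : ℝ) := by push_cast; rfl
    rw [e, le_div_iff₀ (by positivity)]
    calc ((SS (C0 * M)).card : ℝ) * (2 * (4 * f.natDegree + 2) * q * ((∏ p ∈ Q, p : ℕ) : ℝ)) *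
          w ^ 4 ≤ (3 * (C0 * M)) * (2 * (4 * f.natDegree + 2) * M * w ^ 4) * w ^ 4 := by
          have := card_SS hC0M
          gcongr
      _ = (6 * (4 * f.natDegree + 2) * C0) * (M * M) * (w ^ 4 * w ^ 4) := by ring
      _ ≤ M * (M * M) * (M * M) := by gcongr
      _ = M ^ 5 := by ring
      _ ≤ N := hMN
  have h5 : (N : ℝ) * (w ^ 4)⁻¹ = N / w ^ 4 := by ring
  have h6 : 2 * (N : ℝ) / w ^ 4 = N / w ^ 4 + N / w ^ 4 := by ring
  rw [h5] at h2
  have h7 := abs_le.1 (h1.trans h4)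
  have h8 := abs_le.1 h2
  rw [h6, abs_le]
  constructor <;> linarith [h7.1, h7.2, h8.1, h8.2]

lemma moment (hC : S_DIVC) (f : ℝ[X]) (N q : ℕ) (F : ℤ[X]) (M w C0 δ : ℝ)
    (hdeg : F.natDegree ≤ f.natDegree) (hq : 1 ≤ q) (hqM : (q : ℝ) ≤ M) (hw : 1 ≤ w)
    (hwM : w ^ 4 ≤ M) (hC0 : 1 ≤ C0) (hC3 : 6 * (4 * f.natDegree + 2) * C0 ≤ M)
    (hMN : M ^ 5 ≤ N) (hs : ∀ n ∈ Finset.Icc 1 N, |(sn f q F n : ℝ)| ≤ C0 * M)
    (hA : ∀ m : ℕ, 1 ≤ m → (m : ℝ) ≤ w ^ 4 →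
      |cnt N (fun n => (m : ℤ) ∣ ⌊f.eval (n : ℝ)⌋) - N / m| ≤ N * (w ^ 4)⁻¹)
    (hf : 1 ≤ f.natDegree) (hb : F.coeff f.natDegree ≠ 0)
    (hbs : ∑ p ∈ (F.coeff f.natDegree).natAbs.primeFactors, (1 : ℝ) / p ≤ δ) :
    ∑ n ∈ Finset.Icc 1 N, (∑ p ∈ Pq q w, (lam F (sn f q F n) p - 1 / p)) ^ 2 ≤
      N * (6 + 3 * (f.natDegree + 1) + δ) := by
  classical
  have hw0 : 0 < w := by linarith
  have hP : ∀ p ∈ Pq q w, p.Prime ∧ (p : ℝ) ≤ w ∧ ¬ p ∣ q := fun p hp => (mem_Pq hw0.le).1 hp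
  have h1 : ∀ p ∈ Pq q w, |∑ n ∈ Finset.Icc 1 N, lam F (sn f q F n) p -
      (Finset.Icc 1 N).card / (p : ℝ)| ≤ 2 * N / w ^ 4 := by
    intro p hp
    obtain ⟨hp1, hp2, hp3⟩ := hP p hp
    have h2 := prod_moment hC f N q F M w C0 hdeg hq hqM hw hwM hC0 hC3 hMN hs hA {p}
      (by simpa using ⟨hp1, hp3⟩)
      (by
        rw [Finset.prod_singleton]
        calc (p : ℝ) ≤ w := hp2
          _ = w ^ 1 := (pow_one w).symm
          _ ≤ w ^ 4 := pow_le_pow_right₀ hw (by norm_num))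
    simpa using h2
  have h2 : ∀ p ∈ Pq q w, ∀ p' ∈ Pq q w, p ≠ p' →
      |∑ n ∈ Finset.Icc 1 N, lam F (sn f q F n) p * lam F (sn f q F n) p' -
      (Finset.Icc 1 N).card / ((p : ℝ) * p')| ≤ 2 * N / w ^ 4 := by
    intro p hp p' hp' hpp
    obtain ⟨hp1, hp2, hp3⟩ := hP p hp
    obtain ⟨hp1', hp2', hp3'⟩ := hP p' hp'
    have h3 := prod_moment hC f N q F M w C0 hdeg hq hqM hw hwM hC0 hC3 hMN hs hA {p, p'}
      (by
        intro r hr
        rw [Finset.mem_insert, Finset.mem_singleton] at hr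
        rcases hr with rfl | rfl
        · exact ⟨hp1, hp3⟩
        · exact ⟨hp1', hp3'⟩)
      (by
        rw [Finset.prod_pair hpp, Nat.cast_mul]
        calc (p : ℝ) * p' ≤ w * w := mul_le_mul hp2 hp2' (by positivity) hw0.le
          _ = w ^ 2 := by ring
          _ ≤ w ^ 4 := pow_le_pow_right₀ hw (by norm_num))
    rw [Finset.prod_pair hpp, Nat.cast_mul] at h3
    have h4 : ∀ n ∈ Finset.Icc 1 N, ∏ r ∈ ({p, p'} : Finset ℕ), lam F (sn f q F n) r =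
        lam F (sn f q F n) p * lam F (sn f q F n) p' := fun n _ => Finset.prod_pair hpp
    rw [Finset.sum_congr rfl h4] at h3
    simpa using h3
  have h3 := second_moment (Finset.Icc 1 N) (Pq q w) (fun n p => lam F (sn f q F n) p)
    (2 * N / w ^ 4) f.natDegree (by positivity) (by positivity)
    (fun p hp => (hP p hp).1.two_le) (fun n _ p _ => lam_nonneg _ _ _)
    (fun n _ p _ => lam_le_one _ _ _) (Cont F)
    (fun n _ p hp hc => lam_le_deg F _ p _ (hP p hp).1 hc hdeg) h1 h2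
  refine h3.trans ?_
  have hcard : ((Pq q w).card : ℝ) ≤ w := by
    refine le_trans ?_ (card_primesLE w hw0.le)
    exact_mod_cast Finset.card_le_card (Finset.filter_subset _ _)
  have hN : ((Finset.Icc 1 N).card : ℝ) = N := by simp
  rw [hN]
  have e1 : 3 * (2 * N / w ^ 4) * ((Pq q w).card : ℝ) ^ 2 ≤ 6 * N := by
    calc 3 * (2 * N / w ^ 4) * ((Pq q w).card : ℝ) ^ 2 ≤ 3 * (2 * N / w ^ 4) * w ^ 2 := by
          gcongr
      _ = 6 * N / w ^ 2 := by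
          field_simp
          ring
      _ ≤ 6 * N := div_le_self (by positivity) (one_le_pow₀ hw)
  have e2 : ((f.natDegree : ℝ) + 1) * (2 * N / w ^ 4) * ((Pq q w).card : ℝ) ≤
      2 * ((f.natDegree : ℝ) + 1) * N := by
    calc ((f.natDegree : ℝ) + 1) * (2 * N / w ^ 4) * ((Pq q w).card : ℝ) ≤
        ((f.natDegree : ℝ) + 1) * (2 * N / w ^ 4) * w := by gcongr
      _ = 2 * ((f.natDegree : ℝ) + 1) * N / w ^ 3 := by
          field_simp
      _ ≤ 2 * ((f.natDegree : ℝ) + 1) * N := div_le_self (by positivity) (one_le_pow₀ hw)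
  have e3 : ((f.natDegree : ℝ) + 1) * N * ∑ p ∈ Pq q w, 1 / (p : ℝ) ^ 2 ≤
      ((f.natDegree : ℝ) + 1) * N := by
    refine mul_le_of_le_one_right (by positivity) ?_
    exact sum_inv_sq _ fun p hp => (hP p hp).1.two_le
  have e4 : (N : ℝ) * ∑ p ∈ (Pq q w).filter (Cont F), 1 / (p : ℝ) ≤ N * δ := by
    refine mul_le_mul_of_nonneg_left ?_ (by positivity)
    refine le_trans ?_ hbs
    refine Finset.sum_le_sum_of_subset_of_nonneg ?_ fun p _ _ => by positivity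
    intro p hp
    rw [Finset.mem_filter] at hp
    refine Nat.mem_primeFactors.2 ⟨(hP p hp.1).1, ?_, by simpa using hb⟩
    exact Int.natCast_dvd.1 (hp.2 _ hf)
  have e5 : (N : ℝ) * (6 + 3 * (f.natDegree + 1) + δ) = 6 * N +
      2 * ((f.natDegree : ℝ) + 1) * N + ((f.natDegree : ℝ) + 1) * N + N * δ := by ring
  rw [e5]
  linarith

lemma tendsto_sqrt_ll : Tendsto (fun N : ℕ => Real.sqrt (ll N)) atTop atTop :=
  Real.tendsto_sqrt_atTop.comp ((Real.tendsto_log_atTop.comp Real.tendsto_log_atTop).comp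
    tendsto_natCast_atTop_atTop)

/-- Chebyshev -/
lemma cheb (N : ℕ) (P : ℕ → Prop) (W : ℕ → ℝ) (a V : ℝ) (ha : 0 < a)
    (h : ∀ n ∈ Finset.Icc 1 N, P n → a ≤ W n ^ 2)
    (hV : ∑ n ∈ Finset.Icc 1 N, W n ^ 2 ≤ V) : cnt N P ≤ V / a := by
  classical
  unfold cnt
  rw [le_div_iff₀ ha]
  calc (((Finset.Icc 1 N).filter P).card : ℝ) * a = ∑ n ∈ (Finset.Icc 1 N).filter P, a := by
        rw [Finset.sum_const, nsmul_eq_mul]
    _ ≤ ∑ n ∈ (Finset.Icc 1 N).filter P, W n ^ 2 :=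
        Finset.sum_le_sum fun n hn => h n (Finset.mem_filter.1 hn).1 (Finset.mem_filter.1 hn).2
    _ ≤ ∑ n ∈ Finset.Icc 1 N, W n ^ 2 :=
        Finset.sum_le_sum_of_subset_of_nonneg (Finset.filter_subset _ _)
          fun _ _ _ => sq_nonneg _
    _ ≤ V := hV

theorem main (hA : S_DIVA) (hC : S_DIVC) (hM : S_MERT) (hO : S_OMR) (hS : S_SCALE) :
    S_SMALL := by
  intro f hf ε hε
  obtain ⟨c, MA, hc0, hc1, hA⟩ := hA f.natDegree hf
  obtain ⟨Cm, hCm⟩ := hM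
  have hCm0 : 0 ≤ Cm := (abs_nonneg _).trans (hCm 2 le_rfl)
  obtain ⟨C0, N₁, hC01, hSc⟩ := hS f hf
  obtain ⟨N₂, hO1⟩ := hO 1 one_pos
  obtain ⟨N₃, hO8⟩ := hO (ε / 8) (by positivity)
  set D := f.natDegree with hD
  set c₁ : ℝ := c / 4 with hc₁
  have hc₁0 : 0 < c₁ := by positivity
  set C5 : ℝ := |Real.log c₁| + Cm + D * (|Real.log c₁| + 2 * Cm) + 1 / (c₁ / 2) with hC5
  set A : ℝ := 6 + 3 * (D + 1) with hAdef
  have hA0 : 0 ≤ A := by positivity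
  set κ : ℝ := ε * (ε / 2) ^ 2 with hκ
  have hκ0 : 0 < κ := by positivity
  have ev1 : ∀ᶠ N : ℕ in atTop, C5 / (ε / 8) ≤ Real.sqrt (ll N) :=
    tendsto_sqrt_ll.eventually_ge_atTop _
  have ev2 : ∀ᶠ N : ℕ in atTop, (A + 1) / κ ≤ Real.sqrt (ll N) :=
    tendsto_sqrt_ll.eventually_ge_atTop _
  have ev3 : ∀ᶠ N : ℕ in atTop, 1 ≤ Real.sqrt (ll N) := tendsto_sqrt_ll.eventually_ge_atTop _
  obtain ⟨N₄, hN₄⟩ := (ev1.and (ev2.and ev3)).exists_forall_of_atTop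
  have em1 : ∀ᶠ M : ℝ in atTop, 2 ≤ M ^ c₁ := (tendsto_rpow_atTop hc₁0).eventually_ge_atTop 2
  obtain ⟨M₂, hM₂⟩ := em1.exists_forall_of_atTop
  refine ⟨5, max (max MA M₂) (max (max C0 2) (6 * (4 * D + 2) * C0)),
    max (max N₁ N₂) (max N₃ N₄), ?_⟩
  intro N q F T M hN hDat hM hMN
  have hMA : MA ≤ M := ((le_max_left _ _).trans (le_max_left _ _)).trans hM
  have hMM₂ : M₂ ≤ M := ((le_max_right _ _).trans (le_max_left _ _)).trans hM
  have hMC0 : C0 ≤ M :=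
    (((le_max_left _ _).trans (le_max_left _ _)).trans (le_max_right _ _)).trans hM
  have hM2 : 2 ≤ M :=
    (((le_max_right _ _).trans (le_max_left _ _)).trans (le_max_right _ _)).trans hM
  have hMC3 : 6 * (4 * D + 2) * C0 ≤ M := ((le_max_right _ _).trans (le_max_right _ _)).trans hM
  have hN1 : N₁ ≤ N := ((le_max_left _ _).trans (le_max_left _ _)).trans hN
  have hN2 : N₂ ≤ N := ((le_max_right _ _).trans (le_max_left _ _)).trans hN
  have hN3 : N₃ ≤ N := ((le_max_left _ _).trans (le_max_right _ _)).trans hN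
  have hN4 : N₄ ≤ N := ((le_max_right _ _).trans (le_max_right _ _)).trans hN
  obtain ⟨ev1, ev2, ev3⟩ := hN₄ N hN4
  have hM0 : 0 < M := by linarith
  have hM1 : 1 ≤ M := by linarith
  have hM2N : M ^ 2 ≤ N := (pow_le_pow_right₀ hM1 (by norm_num)).trans hMN
  have hMN' : M ≤ N := by
    calc M = M ^ 1 := (pow_one M).symm
      _ ≤ M ^ 5 := pow_le_pow_right₀ hM1 (by norm_num)
      _ ≤ N := hMN
  have hNr : (1 : ℝ) ≤ N := hM1.trans hMN'
  have hNn : 1 ≤ N := by exact_mod_cast hNr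
  have hq : 1 ≤ q := hDat.q_pos
  have hq0 : (1 : ℝ) ≤ q := by exact_mod_cast hq
  have hqM : (q : ℝ) ≤ M := by
    rw [hDat.hM]
    exact le_mul_of_one_le_right (by linarith) (by linarith [hDat.T_nn])
  obtain ⟨⟨R, hR⟩, hsn⟩ := hSc N q F T M hN1 hDat hM2N
  have hRD : (1 : ℝ) ≤ R ^ D := one_le_pow₀ hR.hR
  have hb : F.coeff D ≠ 0 := by
    intro h0
    have h1 := hR.low
    rw [h0] at h1
    simp at h1
    linarith
  have hbM : |(F.coeff D : ℝ)| ≤ M ^ 2 := by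
    have h1 := hR.up D
    have h2 : |(F.coeff D : ℝ)| ≤ |(F.coeff D : ℝ)| * R ^ D :=
      le_mul_of_one_le_right (abs_nonneg _) hRD
    nlinarith
  have hbn : ((F.coeff D).natAbs : ℝ) = |(F.coeff D : ℝ)| := by
    rw [Nat.cast_natAbs, Int.cast_abs]
  have hb1 : 1 ≤ (F.coeff D).natAbs := Int.natAbs_pos.2 hb
  have hbN : (F.coeff D).natAbs ≤ N ^ 2 := by
    have h1 : ((F.coeff D).natAbs : ℝ) ≤ (N : ℝ) ^ 2 := by
      rw [hbn]
      calc |(F.coeff D : ℝ)| ≤ M ^ 2 := hbM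
        _ ≤ (N : ℝ) := hM2N
        _ = (N : ℝ) ^ 1 := (pow_one _).symm
        _ ≤ (N : ℝ) ^ 2 := pow_le_pow_right₀ hNr (by norm_num)
    exact_mod_cast h1
  have hqN : q ≤ N ^ 2 := by
    have h1 : (q : ℝ) ≤ (N : ℝ) ^ 2 := by
      calc (q : ℝ) ≤ M := hqM
        _ ≤ (N : ℝ) := hMN'
        _ = (N : ℝ) ^ 1 := (pow_one _).symm
        _ ≤ (N : ℝ) ^ 2 := pow_le_pow_right₀ hNr (by norm_num)
    exact_mod_cast h1
  set w : ℝ := M ^ c₁ with hw
  have hw2 : 2 ≤ w := hM₂ M hMM₂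
  have hw4 : w ^ 4 = M ^ c := by
    rw [hw, ← Real.rpow_natCast, ← Real.rpow_mul hM0.le]
    congr 1
    rw [hc₁]
    push_cast
    ring
  have hw4M : w ^ 4 ≤ M := by
    rw [hw4]
    calc M ^ c ≤ M ^ (1 : ℝ) := Real.rpow_le_rpow_of_exponent_le hM1 hc1.le
      _ = M := Real.rpow_one M
  have hw4i : (w ^ 4)⁻¹ = M ^ (-c) := by rw [hw4, Real.rpow_neg hM0.le]
  have hdeg : F.natDegree ≤ D := hDat.deg
  have hmom := moment hC f N q F M w C0 (1 * Real.sqrt (ll N)) hdeg hq hqM (by linarith) hw4M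
    hC01 hMC3 hMN hsn (by
      intro m hm1 hm2
      rw [hw4i]
      rw [hw4] at hm2
      exact hA f N q F T M rfl hNn hDat hMA m hm1 hm2) hf hb (hO1 N hN2 _ hb1 hbN)
  have hdet : ∀ n : ℕ, |mu F q M (sn f q F n) - ll M -
      ∑ p ∈ Pq q w, (lam F (sn f q F n) p - 1 / p)| ≤ ε / 4 * Real.sqrt (ll N) := by
    intro n
    have h1 := det_part F q D (sn f q F n) M w c₁ Cm (ε / 8 * Real.sqrt (ll N)) hq hf hdeg hw hw2
      (by linarith) hc₁0 (by rw [hc₁]; linarith) hCm0 hCm (hO8 N hN3 q hq hqN) hb (by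
        have h2 : Real.log ((F.coeff D).natAbs : ℝ) ≤ Real.log (M ^ 2) :=
          Real.log_le_log (by exact_mod_cast hb1) (by rw [hbn]; exact hbM)
        rw [Real.log_pow] at h2
        exact_mod_cast h2)
    refine h1.trans ?_
    rw [div_le_iff₀ (by positivity)] at ev1
    rw [hC5] at ev1
    linarith
  set v := Real.sqrt (ll N) with hv
  have hv2 : v ^ 2 = ll N := by
    refine Real.sq_sqrt ?_
    by_contra h
    have : Real.sqrt (ll N) = 0 := Real.sqrt_eq_zero_of_nonpos (not_le.1 h).le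
    rw [hv, this] at ev3
    linarith
  have hch := cheb N (fun n => ε * v < |mu F q M (sn f q F n) - ll M|)
    (fun n => ∑ p ∈ Pq q w, (lam F (sn f q F n) p - 1 / p)) ((ε / 2 * v) ^ 2)
    (N * (A + 1 * v)) (by positivity) (by
      intro n _ hn
      have h1 := hdet n
      have h2 : ε / 2 * v ≤ |∑ p ∈ Pq q w, (lam F (sn f q F n) p - 1 / p)| := by
        have h3 : |mu F q M (sn f q F n) - ll M| ≤ |mu F q M (sn f q F n) - ll M -
          ∑ p ∈ Pq q w, (lam F (sn f q F n) p - 1 / p)| +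
          |∑ p ∈ Pq q w, (lam F (sn f q F n) p - 1 / p)| := by
          have := abs_add_le (mu F q M (sn f q F n) - ll M -
            ∑ p ∈ Pq q w, (lam F (sn f q F n) p - 1 / p))
            (∑ p ∈ Pq q w, (lam F (sn f q F n) p - 1 / p))
          rwa [sub_add_cancel] at this
        have h4 : 0 ≤ ε * v := by positivity
        linarith
      rw [← sq_abs (∑ p ∈ Pq q w, (lam F (sn f q F n) p - 1 / p))]
      exact pow_le_pow_left₀ (by positivity) h2 2) hmom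
  refine hch.trans ?_
  rw [div_le_iff₀ (by positivity)]
  have h1 : A + 1 * v ≤ κ * v ^ 2 := by
    rw [div_le_iff₀ hκ0] at ev2
    have h2 : A ≤ A * v := le_mul_of_one_le_right hA0 ev3
    have h3 : (A + 1) * v ≤ v * κ * v := mul_le_mul_of_nonneg_right ev2 (by linarith)
    nlinarith
  calc (N : ℝ) * (A + 1 * v) ≤ N * (κ * v ^ 2) := mul_le_mul_of_nonneg_left h1 (by linarith)
    _ = ε * N * (ε / 2 * v) ^ 2 := by rw [hκ]; ring

end Pool.Agent.Helper12.EP.Small
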